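import Mathlib

/-!
# Mutually quasi-orthogonal latin squares: definitions, products, sets with a common column
-/

set_option autoImplicit false
set_option linter.unusedSectionVars false

namespace Pool.Agent.Lib.MP_dea8c9_co.MQ

open Finset

/-- Square arrays with rows, columns and symbols indexed by `α`. -/
abbrev Sq (α : Type) : Type := α → α → α

/-- Latin squares. -/
def IsLatin {α : Type} (L : Sq α) : Prop :=
  (∀ i, Function.Bijective (L i)) ∧ ∀ j, Function.Bijective fun i => L i j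

/-- Number of cells in which `L` has the symbol `u` and `M` has the symbol `v`. -/
def cnt {α : Type} [Fintype α] [DecidableEq α] (L M : Sq α) (u v : α) : ℕ :=
  (univ.filter fun p : α × α => L p.1 p.2 = u ∧ M p.1 p.2 = v).card

/-- `L` and `M` are quasi-orthogonal. -/
def QuasiOrth {α : Type} [Fintype α] [DecidableEq α] (L M : Sq α) : Prop :=
  (∀ u, cnt L M u u = 1) ∧ ∀ u v, u ≠ v → cnt L M u v + cnt L M v u = 2

/-- `L` and `M` are orthogonal. -/
def Orth {α : Type} [Fintype α] [DecidableEq α] (L M : Sq α) : Prop := ∀ u v, cnt L M u v = 1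

/-- A family of mutually quasi-orthogonal latin squares. -/
def IsMQOLS {α : Type} [Fintype α] [DecidableEq α] {N : ℕ} (L : Fin N → Sq α) : Prop :=
  (∀ k, IsLatin (L k)) ∧ ∀ k l, k ≠ l → QuasiOrth (L k) (L l)

/-- A family of mutually orthogonal latin squares. -/
def IsMOLS {α : Type} [Fintype α] [DecidableEq α] {N : ℕ} (L : Fin N → Sq α) : Prop :=
  (∀ k, IsLatin (L k)) ∧ ∀ k l, k ≠ l → Orth (L k) (L l)

/-! ### Transport of structure -/

section transport

variable {α β : Type} [Fintype α] [DecidableEq α] [Fintype β] [DecidableEq β]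

/-- transport along an equivalence -/
def tr (e : α ≃ β) (L : Sq α) : Sq β := fun i j => e (L (e.symm i) (e.symm j))

theorem tr_latin (e : α ≃ β) {L : Sq α} (h : IsLatin L) : IsLatin (tr e L) := by
  refine ⟨fun i => ?_, fun j => ?_⟩
  · exact e.bijective.comp ((h.1 _).comp e.symm.bijective)
  · exact e.bijective.comp ((h.2 _).comp e.symm.bijective)

theorem tr_cnt (e : α ≃ β) (L M : Sq α) (u v : β) :
    cnt (tr e L) (tr e M) u v = cnt L M (e.symm u) (e.symm v) := by
  unfold cnt
  refine Finset.card_bij (fun p _ => (e.symm p.1, e.symm p.2)) ?_ ?_ ?_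
  · intro p hp
    have hp' := (Finset.mem_filter.1 hp).2
    refine Finset.mem_filter.2 ⟨mem_univ _, ?_, ?_⟩
    · rw [← hp'.1]; simp [tr]
    · rw [← hp'.2]; simp [tr]
  · intro p _ p' _ h
    simp only [Prod.mk.injEq, EmbeddingLike.apply_eq_iff_eq] at h
    exact Prod.ext h.1 h.2
  · intro p hp
    have hp' := (Finset.mem_filter.1 hp).2
    refine ⟨(e p.1, e p.2), Finset.mem_filter.2 ⟨mem_univ _, ?_, ?_⟩, by simp⟩
    · simp [tr, hp'.1]
    · simp [tr, hp'.2]

theorem tr_MQOLS (e : α ≃ β) {N : ℕ} {L : Fin N → Sq α} (h : IsMQOLS L) :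
    IsMQOLS fun k => tr e (L k) := by
  refine ⟨fun k => tr_latin e (h.1 k), fun k l hkl => ⟨fun u => ?_, fun u v huv => ?_⟩⟩
  · rw [tr_cnt]; exact (h.2 k l hkl).1 _
  · rw [tr_cnt, tr_cnt]
    exact (h.2 k l hkl).2 _ _ (fun h' => huv (e.symm.injective h'))

theorem tr_MOLS (e : α ≃ β) {N : ℕ} {L : Fin N → Sq α} (h : IsMOLS L) :
    IsMOLS fun k => tr e (L k) := by
  refine ⟨fun k => tr_latin e (h.1 k), fun k l hkl u v => ?_⟩
  rw [tr_cnt]; exact h.2 k l hkl _ _

/-! ### Products -/

/-- direct product of two squares -/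
def prod (L : Sq α) (M : Sq β) : Sq (α × β) := fun i j => (L i.1 j.1, M i.2 j.2)

theorem prod_latin {L : Sq α} {M : Sq β} (hL : IsLatin L) (hM : IsLatin M) :
    IsLatin (prod L M) := by
  refine ⟨fun i => ?_, fun j => ?_⟩
  · exact (hL.1 i.1).prodMap (hM.1 i.2)
  · exact (hL.2 j.1).prodMap (hM.2 j.2)

theorem prod_cnt (L L' : Sq α) (M M' : Sq β) (u v : α × β) :
    cnt (prod L M) (prod L' M') u v = cnt L L' u.1 v.1 * cnt M M' u.2 v.2 := by
  unfold cnt
  rw [← Finset.card_product]
  refine Finset.card_bij (fun p _ => ((p.1.1, p.2.1), (p.1.2, p.2.2))) ?_ ?_ ?_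
  · intro p hp
    simp only [mem_filter, mem_univ, true_and, prod, mem_product, Prod.ext_iff] at hp ⊢
    exact ⟨⟨hp.1.1, hp.2.1⟩, hp.1.2, hp.2.2⟩
  · intro p _ p' _ h
    simp only [Prod.mk.injEq] at h
    exact Prod.ext (Prod.ext h.1.1 h.2.1) (Prod.ext h.1.2 h.2.2)
  · rintro ⟨⟨a, b⟩, c, d⟩ hp
    refine ⟨((a, c), (b, d)), ?_, rfl⟩
    simp only [mem_filter, mem_univ, true_and, prod, mem_product, Prod.ext_iff] at hp ⊢
    exact ⟨⟨hp.1.1, hp.2.1⟩, hp.1.2, hp.2.2⟩

theorem prod_MQOLS {N : ℕ} {L : Fin N → Sq α} {M : Fin N → Sq β} (hL : IsMQOLS L)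
    (hM : IsMOLS M) : IsMQOLS fun k => prod (L k) (M k) := by
  refine ⟨fun k => prod_latin (hL.1 k) (hM.1 k), fun k l hkl => ⟨fun u => ?_, fun u v huv => ?_⟩⟩
  · rw [prod_cnt, (hL.2 k l hkl).1, hM.2 k l hkl]
  · rw [prod_cnt, prod_cnt, hM.2 k l hkl, hM.2 k l hkl, mul_one, mul_one]
    by_cases h : u.1 = v.1
    · rw [h, (hL.2 k l hkl).1]
    · exact (hL.2 k l hkl).2 _ _ h

theorem prod_MOLS {N : ℕ} {L : Fin N → Sq α} {M : Fin N → Sq β} (hL : IsMOLS L)
    (hM : IsMOLS M) : IsMOLS fun k => prod (L k) (M k) := by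
  refine ⟨fun k => prod_latin (hL.1 k) (hM.1 k), fun k l hkl u v => ?_⟩
  rw [prod_cnt, hL.2 k l hkl, hM.2 k l hkl]

end transport

/-! ### Fields -/

section field

variable {F : Type} [Field F] [Fintype F] [DecidableEq F]

theorem field_latin {a : F} (ha : a ≠ 0) : IsLatin (fun x y : F => a * x + y) := by
  refine ⟨fun i => ?_, fun j => ?_⟩
  · refine (Finite.injective_iff_bijective).1 fun y z h => ?_
    simpa using h
  · refine (Finite.injective_iff_bijective).1 fun y z h => ?_
    have h' : a * y = a * z := by simpa using h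
    exact mul_left_cancel₀ ha h'

theorem field_orth {a b : F} (hab : a ≠ b) :
    Orth (fun x y : F => a * x + y) (fun x y : F => b * x + y) := by
  intro u v
  unfold cnt
  rw [Finset.card_eq_one]
  have hd : a - b ≠ 0 := sub_ne_zero.2 hab
  refine ⟨((u - v) / (a - b), u - a * ((u - v) / (a - b))), ?_⟩
  ext ⟨x, y⟩
  simp only [mem_filter, mem_univ, true_and, mem_singleton, Prod.mk.injEq]
  constructor
  · rintro ⟨h1, h2⟩
    have hx : x = (u - v) / (a - b) := by
      rw [eq_div_iff hd, ← h1, ← h2]; ring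
    exact ⟨hx, by rw [← hx, ← h1]; ring⟩
  · rintro ⟨rfl, rfl⟩
    refine ⟨by ring, ?_⟩
    have : b * ((u - v) / (a - b)) + (u - a * ((u - v) / (a - b)))
        = u - (a - b) * ((u - v) / (a - b)) := by ring
    rw [this, mul_div_cancel₀ _ hd]; ring

end field

/-- `N` orthogonal latin squares of order `n` -/
def HasMOLS (N n : ℕ) : Prop := ∃ B : Fin N → Sq (Fin n), IsMOLS B

/-- `N` quasi-orthogonal latin squares of order `n` -/
def HasMQOLS (N n : ℕ) : Prop := ∃ B : Fin N → Sq (Fin n), IsMQOLS B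

theorem hasMOLS_primePow {N p r : ℕ} (hp : p.Prime) (hr : r ≠ 0) (hN : N < p ^ r) :
    HasMOLS N (p ^ r) := by
  classical
  have : Fact p.Prime := ⟨hp⟩
  let F := GaloisField p r
  letI : Fintype F := Fintype.ofFinite F
  have hcard : Fintype.card F = p ^ r := by
    rw [← Nat.card_eq_fintype_card]; exact GaloisField.card p r hr
  have hu : Fintype.card Fˣ = p ^ r - 1 := by rw [Fintype.card_units, hcard]
  have hle : Fintype.card (Fin N) ≤ Fintype.card Fˣ := by
    rw [Fintype.card_fin, hu]; omega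
  obtain ⟨f⟩ := Function.Embedding.nonempty_of_card_le hle
  let e : F ≃ Fin (p ^ r) := Fintype.equivFinOfCardEq hcard
  have h : IsMOLS (fun k : Fin N => (fun x y : F => ((f k : Fˣ) : F) * x + y : Sq F)) := by
    refine ⟨fun k => field_latin (f k).ne_zero, fun k l hkl => field_orth fun h => hkl ?_⟩
    exact f.injective (Units.ext h)
  exact ⟨_, tr_MOLS e h⟩

theorem hasMOLS_mul {N a b : ℕ} (ha : HasMOLS N a) (hb : HasMOLS N b) : HasMOLS N (a * b) := by
  obtain ⟨A, hA⟩ := ha
  obtain ⟨B, hB⟩ := hb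
  exact ⟨_, tr_MOLS finProdFinEquiv (prod_MOLS hA hB)⟩

theorem hasMQOLS_mul {N a b : ℕ} (ha : HasMQOLS N a) (hb : HasMOLS N b) :
    HasMQOLS N (a * b) := by
  obtain ⟨A, hA⟩ := ha
  obtain ⟨B, hB⟩ := hb
  exact ⟨_, tr_MQOLS finProdFinEquiv (prod_MQOLS hA hB)⟩

theorem hasMOLS_one (N : ℕ) : HasMOLS N 1 := by
  refine ⟨fun _ i _ => i, fun k => ⟨fun i => ?_, fun j => ?_⟩, fun k l _ u v => ?_⟩
  · exact (Finite.injective_iff_bijective).1 (Function.injective_of_subsingleton _)
  · exact (Finite.injective_iff_bijective).1 (Function.injective_of_subsingleton _)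
  · unfold cnt
    rw [Finset.card_eq_one]
    refine ⟨(0, 0), ?_⟩
    ext p
    simp only [mem_filter, mem_univ, true_and, mem_singleton]
    exact ⟨fun _ => Subsingleton.elim _ _, fun _ => ⟨Subsingleton.elim _ _, Subsingleton.elim _ _⟩⟩

theorem hasMOLS_of_factors (N : ℕ) (k : ℕ) : 0 < k →
    (∀ p : ℕ, p.Prime → p ∣ k → N < p ^ k.factorization p) → HasMOLS N k := by
  induction k using Nat.recOnPosPrimePosCoprime with
  | zero => intro h; exact absurd h (lt_irrefl _)
  | one => intro _ _; exact hasMOLS_one N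
  | prime_pow p n hp hn =>
    intro _ h
    have h1 := h p hp (dvd_pow_self p hn.ne')
    rw [hp.factorization_pow, Finsupp.single_eq_same] at h1
    exact hasMOLS_primePow hp hn.ne' h1
  | coprime a b ha hb hab iha ihb =>
    intro _ h
    have ha0 : a ≠ 0 := by omega
    have hb0 : b ≠ 0 := by omega
    refine hasMOLS_mul (iha (by omega) fun p hp hpa => ?_) (ihb (by omega) fun p hp hpb => ?_)
    · have h1 := h p hp (hpa.mul_right b)
      have h2 : ¬ p ∣ b := fun hpb => hp.one_lt.ne' (Nat.eq_one_of_dvd_coprimes hab hpa hpb)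
      rwa [Nat.factorization_mul ha0 hb0, Finsupp.add_apply,
        Nat.factorization_eq_zero_of_not_dvd h2, add_zero] at h1
    · have h1 := h p hp (hpb.mul_left a)
      have h2 : ¬ p ∣ a := fun hpa => hp.one_lt.ne' (Nat.eq_one_of_dvd_coprimes hab hpa hpb)
      rwa [Nat.factorization_mul ha0 hb0, Finsupp.add_apply,
        Nat.factorization_eq_zero_of_not_dvd h2, zero_add] at h1

/-! ### General lemmas -/

theorem isLatin_of {n : ℕ} {L : Sq (Fin n)} (h1 : ∀ i j k, L i j = L i k → j = k)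
    (h2 : ∀ j i k, L i j = L k j → i = k) : IsLatin L :=
  ⟨fun i => Finite.injective_iff_bijective.1 fun j k h => h1 i j k h,
    fun j => Finite.injective_iff_bijective.1 fun i k h => h2 j i k h⟩

theorem cnt_comm {n : ℕ} (L M : Sq (Fin n)) (u v : Fin n) : cnt L M u v = cnt M L v u := by
  unfold cnt
  congr 1
  ext p
  simp only [mem_filter, mem_univ, true_and]
  exact and_comm

theorem QuasiOrth.symm {n : ℕ} {L M : Sq (Fin n)} (h : QuasiOrth L M) : QuasiOrth M L := by
  refine ⟨fun u => ?_, fun u v huv => ?_⟩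
  · rw [cnt_comm]; exact h.1 u
  · rw [cnt_comm M L u v, cnt_comm M L v u]; exact h.2 v u huv.symm

theorem cnt_perm {n : ℕ} (L M : Sq (Fin n)) (e : Fin n ≃ Fin n) (u v : Fin n) :
    cnt (fun i j => L i (e j)) (fun i j => M i (e j)) u v = cnt L M u v := by
  unfold cnt
  refine Finset.card_equiv ((Equiv.refl (Fin n)).prodCongr e) fun p => ?_
  simp

theorem quasiOrth_perm {n : ℕ} {L M : Sq (Fin n)} (h : QuasiOrth L M) (e : Fin n ≃ Fin n) :
    QuasiOrth (fun i j => L i (e j)) (fun i j => M i (e j)) := by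
  refine ⟨fun u => ?_, fun u v huv => ?_⟩
  · rw [cnt_perm]; exact h.1 u
  · rw [cnt_perm, cnt_perm]; exact h.2 u v huv

theorem IsMQOLS.mono {n N K : ℕ} {L : Fin N → Sq (Fin n)} (h : IsMQOLS L) (hK : K ≤ N) :
    IsMQOLS fun k : Fin K => L (Fin.castLE hK k) :=
  ⟨fun k => h.1 _, fun k l hkl => h.2 _ _ fun e => hkl (Fin.castLE_injective hK e)⟩

theorem HasMQOLS.mono {N K n : ℕ} (h : HasMQOLS N n) (hK : K ≤ N) : HasMQOLS K n := by
  obtain ⟨B, hB⟩ := h
  exact ⟨_, hB.mono hK⟩

/-! ### Sets with a common column -/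

section commonColumn

variable {n N : ℕ}

/-- all squares agree in the column `c` -/
def CommonColumn (L : Fin N → Sq (Fin n)) (c : Fin n) : Prop := ∀ k l i, L k i c = L l i c

theorem cell_of_agree {L : Fin N → Sq (Fin n)} (h : IsMQOLS L) {c : Fin n} (hc : CommonColumn L c)
    {k l : Fin N} (hkl : k ≠ l) {i j : Fin n} (he : L k i j = L l i j) : j = c := by
  obtain ⟨r, hr⟩ := ((h.1 k).2 c).2 (L k i j)
  have hr : L k r c = L k i j := hr
  have h1 := (h.2 k l hkl).1 (L k i j)
  unfold cnt at h1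
  rw [Finset.card_eq_one] at h1
  obtain ⟨x, hx⟩ := h1
  have m1 : (i, j) ∈ ({x} : Finset (Fin n × Fin n)) := by
    rw [← hx]; simp [he]
  have m2 : (r, c) ∈ ({x} : Finset (Fin n × Fin n)) := by
    rw [← hx]; simp [hr, ← hc k l r]
  rw [Finset.mem_singleton] at m1 m2
  have := m1.trans m2.symm
  exact (Prod.ext_iff.1 this).2

theorem inj_cell {L : Fin N → Sq (Fin n)} (h : IsMQOLS L) {c : Fin n} (hc : CommonColumn L c)
    (i : Fin n) {j : Fin n} (hj : j ≠ c) : Function.Injective fun k => L k i j := by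
  intro k l he
  by_contra hkl
  exact hj (cell_of_agree h hc hkl he)

theorem ne_col {L : Fin N → Sq (Fin n)} (h : IsMQOLS L) {c : Fin n} (hc : CommonColumn L c)
    (i : Fin n) {j : Fin n} (hj : j ≠ c) (k l : Fin N) : L k i j ≠ L l i c := by
  intro he
  rw [← hc k l i] at he
  exact hj (((h.1 k).1 i).1 he)

theorem commonColumn_le {L : Fin N → Sq (Fin n)} (h : IsMQOLS L) {c : Fin n}
    (hc : CommonColumn L c) (hn : 2 ≤ n) : N ≤ n - 1 := by
  rcases Nat.eq_zero_or_pos N with h0 | hN
  · omega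
  have : Nontrivial (Fin n) := Fin.nontrivial_iff_two_le.2 hn
  obtain ⟨j, hj⟩ := exists_ne c
  have hcard : (univ.image fun k => L k c j).card = N := by
    rw [Finset.card_image_of_injective _ (inj_cell h hc c hj), Finset.card_univ, Fintype.card_fin]
  have hsub : (univ.image fun k => L k c j) ⊆ univ.erase (L ⟨0, hN⟩ c c) := by
    intro x hx
    obtain ⟨k, -, rfl⟩ := Finset.mem_image.1 hx
    exact Finset.mem_erase.2 ⟨ne_col h hc c hj k _, mem_univ _⟩
  have := Finset.card_le_card hsub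
  rw [hcard, Finset.card_erase_of_mem (mem_univ _), Finset.card_univ, Fintype.card_fin] at this
  exact this

/-- number of squares with a given symbol in a given cell -/
theorem sum_cell {L : Fin N → Sq (Fin n)} (h : IsMQOLS L) {c : Fin n}
    (hc : CommonColumn L c) (hN : N = n - 1) (k0 : Fin N) (i j u : Fin n) :
    (∑ k, if L k i j = u then (1 : ℤ) else 0) =
      (1 - (if j = c then 1 else 0)) * (1 - (if L k0 i c = u then 1 else 0)) +
      N * ((if j = c then 1 else 0) * (if L k0 i c = u then 1 else 0)) := by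
  by_cases hj : j = c
  · subst hj
    have : ∀ k, L k i j = L k0 i j := fun k => hc k k0 i
    simp only [this, if_true, sub_self, zero_mul, one_mul, zero_add]
    rw [Finset.sum_const, Finset.card_univ, Fintype.card_fin, nsmul_eq_mul]
  · rw [if_neg hj]
    by_cases hu : L k0 i c = u
    · rw [if_pos hu]
      have : ∀ k, L k i j ≠ u := fun k => hu ▸ ne_col h hc i hj k k0
      simp [this]
    · rw [if_neg hu]
      have himg : (univ.image fun k => L k i j) = univ.erase (L k0 i c) := by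
        apply Finset.eq_of_subset_of_card_le
        · intro x hx
          obtain ⟨k, -, rfl⟩ := Finset.mem_image.1 hx
          exact Finset.mem_erase.2 ⟨ne_col h hc i hj k _, mem_univ _⟩
        · rw [Finset.card_image_of_injective _ (inj_cell h hc i hj),
            Finset.card_erase_of_mem (mem_univ _), Finset.card_univ, Finset.card_univ,
            Fintype.card_fin, Fintype.card_fin, hN]
      have hmem : u ∈ univ.image fun k => L k i j := by
        rw [himg]; exact Finset.mem_erase.2 ⟨fun e => hu e.symm, mem_univ _⟩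
      obtain ⟨k1, -, hk1⟩ := Finset.mem_image.1 hmem
      rw [Finset.sum_eq_single k1]
      · simp [hk1]
      · intro k _ hk
        rw [if_neg]
        intro e
        exact hk (inj_cell h hc i hj (e.trans hk1.symm))
      · intro hk; exact absurd (mem_univ _) hk

theorem sum_ite_bij {f : Fin n → Fin n} (hf : Function.Bijective f) (u : Fin n) :
    (∑ i, if f i = u then (1 : ℤ) else 0) = 1 := by
  obtain ⟨i0, hi0⟩ := hf.2 u
  rw [Finset.sum_eq_single i0]
  · rw [if_pos hi0]
  · intro i _ hi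
    rw [if_neg]
    intro e
    exact hi (hf.1 (e.trans hi0.symm))
  · intro hi; exact absurd (mem_univ _) hi

theorem cnt_eq_sum (A B : Sq (Fin n)) (u v : Fin n) :
    (cnt A B u v : ℤ) = ∑ i, ∑ j, (if A i j = u then (1 : ℤ) else 0) * (if B i j = v then 1 else 0) := by
  unfold cnt
  rw [Finset.card_filter, Nat.cast_sum, ← Finset.univ_product_univ, Finset.sum_product]
  refine Finset.sum_congr rfl fun i _ => Finset.sum_congr rfl fun j _ => ?_
  by_cases h1 : A i j = u <;> by_cases h2 : B i j = v <;> simp [h1, h2]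

theorem commonColumn_maximal {L : Fin N → Sq (Fin n)} (h : IsMQOLS L) {c : Fin n}
    (hc : CommonColumn L c) (hn : 2 ≤ n) (hN : N = n - 1) (X : Sq (Fin n)) (hX : IsLatin X) :
    ∃ k, ¬ QuasiOrth (L k) X := by
  by_contra hcon
  push Not at hcon
  have hN0 : 0 < N := by omega
  set k0 : Fin N := ⟨0, hN0⟩
  have hn0 : 0 < n := by omega
  set u : Fin n := ⟨0, hn0⟩
  set a : Fin n → Fin n → ℤ := fun i j => if X i j = u then 1 else 0 with ha
  set b : Fin n → ℤ := fun j => if j = c then 1 else 0 with hb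
  set d : Fin n → ℤ := fun i => if L k0 i c = u then 1 else 0 with hd
  have e1 : (∑ k, (cnt (L k) X u u : ℤ)) = N := by
    have : ∀ k, (cnt (L k) X u u : ℤ) = 1 := fun k => by rw [(hcon k).1 u]; rfl
    simp [this]
  have e2 : (∑ k, (cnt (L k) X u u : ℤ)) =
      ∑ i, ∑ j, ((1 - b j) * (1 - d i) + N * (b j * d i)) * a i j := by
    simp_rw [cnt_eq_sum]
    rw [Finset.sum_comm]
    refine Finset.sum_congr rfl fun i _ => ?_
    rw [Finset.sum_comm]
    refine Finset.sum_congr rfl fun j _ => ?_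
    rw [← Finset.sum_mul, sum_cell h hc hN k0 i j u]
  have s0 : ∀ i, ∑ j, a i j = 1 := fun i => sum_ite_bij (hX.1 i) u
  have s1 : ∀ i, ∑ j, b j * a i j = a i c := fun i => by
    simp [hb]
  have s2 : ∑ i, a i c = 1 := sum_ite_bij (hX.2 c) u
  have s3 : ∑ i, d i = 1 := sum_ite_bij ((h.1 k0).2 c) u
  have e3 : ∀ i, ∑ j, ((1 - b j) * (1 - d i) + N * (b j * d i)) * a i j =
      1 - d i - a i c + (N + 1) * (d i * a i c) := by
    intro i
    have : ∀ j, ((1 - b j) * (1 - d i) + N * (b j * d i)) * a i j =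
        (1 - d i) * a i j - (1 - d i) * (b j * a i j) + N * d i * (b j * a i j) := fun j => by ring
    simp_rw [this, Finset.sum_add_distrib, Finset.sum_sub_distrib, ← Finset.mul_sum, s1, s0]
    ring
  have e6 : (N : ℤ) = ∑ i, (1 - d i - a i c + (N + 1) * (d i * a i c)) :=
    e1.symm.trans (e2.trans (Finset.sum_congr rfl fun i _ => e3 i))
  have e7 : (∑ i, (1 - d i - a i c + (N + 1) * (d i * a i c))) =
      n - 2 + (N + 1) * ∑ i, d i * a i c := by
    rw [Finset.sum_add_distrib, Finset.sum_sub_distrib, Finset.sum_sub_distrib, ← Finset.mul_sum,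
      s2, s3, Finset.sum_const, Finset.card_univ, Fintype.card_fin, nsmul_eq_mul]
    ring
  have e4 : (N : ℤ) = n - 2 + (N + 1) * ∑ i, d i * a i c := e6.trans e7
  have hNn : (N : ℤ) = n - 1 := by omega
  rw [hNn] at e4
  have e5 : (n : ℤ) * ∑ i, d i * a i c = 1 := by linarith
  have := Int.eq_one_or_neg_one_of_mul_eq_one e5
  omega

end commonColumn


end Pool.Agent.Lib.MP_dea8c9_co.MQ
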