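import Pool.Agent.Lib.MP_dea8c9_co.MQBasic

/-!
# Bordered squares over a finite abelian group

A map `a : G → Option G` (with the value `none` standing for `∞`) and two elements `c`, `r` of `G` define a
square on `G ∪ {∞}` with the entry `i + a (j - i)` in the cell `(i, j)`.  Two such squares are
quasi-orthogonal if a condition on the differences of the values holds.
-/

set_option autoImplicit false

namespace Pool.Agent.Lib.MP_dea8c9_co.MQ

open Finset

variable {G : Type} [AddCommGroup G] [Fintype G] [DecidableEq G]

/-- the bordered square of the data `a`, `c`, `r` -/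
def bsq (a : G → Option G) (c r : G) : Sq (Option G) := fun i j =>
  match i, j with
  | some i, some j => (a (j - i)).map fun v => i + v
  | some i, none => some (i + c)
  | none, some j => some (j + r)
  | none, none => none

/-- the number of places where the difference of the values is `d` -/
def dcount (a b : G → Option G) (c c' r r' d : G) : ℕ :=
  (univ.filter fun x : G => (a x).map (fun p => p + d) = b x ∧ a x ≠ none).card +
    ((if c' - c = d then 1 else 0) + if r' - r = d then 1 else 0)

omit [AddCommGroup G] [DecidableEq G] in
theorem sum_option (f : Option G → ℕ) : (∑ x, f x) = f none + ∑ x : G, f (some x) :=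
  Fintype.sum_option f

theorem cnt_eq_sum' {α : Type} [Fintype α] [DecidableEq α] (A B : Sq α) (u v : α) :
    cnt A B u v = ∑ i, ∑ j, if A i j = u ∧ B i j = v then 1 else 0 := by
  unfold cnt
  rw [Finset.card_filter, ← Finset.univ_product_univ, Finset.sum_product]

theorem cnt_bsq_some (a b : G → Option G) (c c' r r' u v : G) :
    cnt (bsq a c r) (bsq b c' r') (some u) (some v) = dcount a b c c' r r' (v - u) := by
  rw [cnt_eq_sum', sum_option]
  simp_rw [sum_option (G := G)]
  have e1 : (if bsq a c r none none = some u ∧ bsq b c' r' none none = some v then 1 else 0) = 0 := by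
    rw [if_neg]; rintro ⟨h, -⟩; simp [bsq] at h
  have e2 : (∑ j : G, if bsq a c r none (some j) = some u ∧ bsq b c' r' none (some j) = some v
      then 1 else 0) = if r' - r = v - u then 1 else 0 := by
    simp only [bsq, Option.some.injEq]
    by_cases h : r' - r = v - u
    · rw [if_pos h, Finset.sum_eq_single (u - r)]
      · rw [if_pos]
        refine ⟨by abel, ?_⟩
        have : r' = v - u + r := by rw [← h]; abel
        rw [this]; abel
      · intro j _ hj
        rw [if_neg]
        rintro ⟨h1, -⟩
        exact hj (by rw [← h1]; abel)
      · intro h'; exact absurd (mem_univ _) h'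
    · rw [if_neg h]
      refine Finset.sum_eq_zero fun j _ => ?_
      rw [if_neg]
      rintro ⟨h1, h2⟩
      exact h (by rw [← h1, ← h2]; abel)
  have e3 : (∑ i : G, if bsq a c r (some i) none = some u ∧ bsq b c' r' (some i) none = some v
      then 1 else 0) = if c' - c = v - u then 1 else 0 := by
    simp only [bsq, Option.some.injEq]
    by_cases h : c' - c = v - u
    · rw [if_pos h, Finset.sum_eq_single (u - c)]
      · rw [if_pos]
        refine ⟨by abel, ?_⟩
        have : c' = v - u + c := by rw [← h]; abel
        rw [this]; abel
      · intro j _ hj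
        rw [if_neg]
        rintro ⟨h1, -⟩
        exact hj (by rw [← h1]; abel)
      · intro h'; exact absurd (mem_univ _) h'
    · rw [if_neg h]
      refine Finset.sum_eq_zero fun j _ => ?_
      rw [if_neg]
      rintro ⟨h1, h2⟩
      exact h (by rw [← h1, ← h2]; abel)
  have e4 : (∑ i : G, ∑ j : G, if bsq a c r (some i) (some j) = some u ∧
      bsq b c' r' (some i) (some j) = some v then 1 else 0) =
      (univ.filter fun x : G => (a x).map (fun p => p + (v - u)) = b x ∧ a x ≠ none).card := by
    rw [Finset.card_filter]
    have : ∀ i : G, (∑ j : G, if bsq a c r (some i) (some j) = some u ∧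
        bsq b c' r' (some i) (some j) = some v then 1 else 0) =
        ∑ x : G, if (a x).map (fun p => i + p) = some u ∧ (b x).map (fun p => i + p) = some v
          then 1 else 0 := by
      intro i
      refine (Fintype.sum_equiv (Equiv.addRight i) _ _ fun x => ?_).symm
      simp [bsq]
    simp_rw [this]
    rw [Finset.sum_comm]
    refine Finset.sum_congr rfl fun x _ => ?_
    cases ha : a x with
    | none => simp
    | some p =>
      cases hb : b x with
      | none => simp
      | some q =>
        simp only [Option.map_some, Option.some.injEq, ne_eq, reduceCtorEq, not_false_eq_true,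
          and_true]
        by_cases h : p + (v - u) = q
        · rw [if_pos h, Finset.sum_eq_single (u - p)]
          · rw [if_pos]
            refine ⟨by abel, ?_⟩
            rw [← h]; abel
          · intro j _ hj
            rw [if_neg]
            rintro ⟨h1, -⟩
            exact hj (by rw [← h1]; abel)
          · intro h'; exact absurd (mem_univ _) h'
        · rw [if_neg h]
          refine Finset.sum_eq_zero fun j _ => ?_
          rw [if_neg]
          rintro ⟨h1, h2⟩
          exact h (by rw [← h1, ← h2]; abel)
  rw [e1, e2, Finset.sum_add_distrib, e3, e4]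
  unfold dcount
  ring

theorem cnt_bsq_some_none (a b : G → Option G) (c c' r r' u : G) :
    cnt (bsq a c r) (bsq b c' r') (some u) none =
      (univ.filter fun x : G => a x ≠ none ∧ b x = none).card := by
  rw [cnt_eq_sum', sum_option]
  simp_rw [sum_option (G := G)]
  have e1 : (if bsq a c r none none = some u ∧ bsq b c' r' none none = none then 1 else 0) = 0 := by
    rw [if_neg]; rintro ⟨h, -⟩; simp [bsq] at h
  have e2 : (∑ j : G, if bsq a c r none (some j) = some u ∧ bsq b c' r' none (some j) = none
      then 1 else 0) = 0 := by
    refine Finset.sum_eq_zero fun j _ => ?_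
    simp [bsq]
  have e3 : (∑ i : G, if bsq a c r (some i) none = some u ∧ bsq b c' r' (some i) none = none
      then 1 else 0) = 0 := by
    refine Finset.sum_eq_zero fun j _ => ?_
    simp [bsq]
  have e4 : (∑ i : G, ∑ j : G, if bsq a c r (some i) (some j) = some u ∧
      bsq b c' r' (some i) (some j) = none then 1 else 0) =
      (univ.filter fun x : G => a x ≠ none ∧ b x = none).card := by
    rw [Finset.card_filter]
    have : ∀ i : G, (∑ j : G, if bsq a c r (some i) (some j) = some u ∧
        bsq b c' r' (some i) (some j) = none then 1 else 0) =
        ∑ x : G, if (a x).map (fun p => i + p) = some u ∧ b x = none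
          then 1 else 0 := by
      intro i
      refine (Fintype.sum_equiv (Equiv.addRight i) _ _ fun x => ?_).symm
      simp [bsq]
    simp_rw [this]
    rw [Finset.sum_comm]
    refine Finset.sum_congr rfl fun x _ => ?_
    cases ha : a x with
    | none => simp
    | some p =>
      by_cases hb : b x = none
      · simp only [hb, Option.map_some, Option.some.injEq, ne_eq, reduceCtorEq,
          not_false_eq_true, and_true, if_true]
        rw [Finset.sum_eq_single (u - p)]
        · rw [if_pos]; abel
        · intro j _ hj
          rw [if_neg]
          intro h1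
          exact hj (by rw [← h1]; abel)
        · intro h'; exact absurd (mem_univ _) h'
      · simp [hb]
  rw [e1, e2, Finset.sum_add_distrib, e3, e4]
  ring

theorem cnt_comm' {α : Type} [Fintype α] [DecidableEq α] (A B : Sq α) (u v : α) :
    cnt A B u v = cnt B A v u := by
  unfold cnt
  congr 1
  ext p
  simp only [mem_filter, mem_univ, true_and]
  exact and_comm

theorem cnt_bsq_none_none (a b : G → Option G) (c c' r r' : G)
    (h : ∀ x, a x = none → b x ≠ none) :
    cnt (bsq a c r) (bsq b c' r') none none = 1 := by
  rw [cnt_eq_sum', sum_option]
  simp_rw [sum_option (G := G)]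
  have e1 : (if bsq a c r none none = none ∧ bsq b c' r' none none = none then 1 else 0) = 1 := by
    simp [bsq]
  have e2 : (∑ j : G, if bsq a c r none (some j) = none ∧ bsq b c' r' none (some j) = none
      then 1 else 0) = 0 := by
    refine Finset.sum_eq_zero fun j _ => ?_
    simp [bsq]
  have e3 : (∑ i : G, if bsq a c r (some i) none = none ∧ bsq b c' r' (some i) none = none
      then 1 else 0) = 0 := by
    refine Finset.sum_eq_zero fun j _ => ?_
    simp [bsq]
  have e4 : (∑ i : G, ∑ j : G, if bsq a c r (some i) (some j) = none ∧
      bsq b c' r' (some i) (some j) = none then 1 else 0) = 0 := by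
    refine Finset.sum_eq_zero fun i _ => Finset.sum_eq_zero fun j _ => ?_
    rw [if_neg]
    simp only [bsq, Option.map_eq_none_iff]
    rintro ⟨h1, h2⟩
    exact h _ h1 h2
  rw [e1, e2, Finset.sum_add_distrib, e3, e4]
  rfl

/-- the condition for a bordered square to be latin -/
def GoodSq (a : G → Option G) (c r : G) : Prop :=
  (∀ x y, a x = a y → x = y) ∧ (∀ x, a x ≠ some c) ∧
  (∀ x y, (a x).map (fun v => v - x) = (a y).map (fun v => v - y) → x = y) ∧
  ∀ x, (a x).map (fun v => v - x) ≠ some r

/-- the condition for two bordered squares to be quasi-orthogonal -/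
def GoodPair (a b : G → Option G) (c c' r r' : G) : Prop :=
  (∀ x, a x = none → b x ≠ none) ∧ (univ.filter fun x : G => a x ≠ none ∧ b x = none).card = 1 ∧
  (univ.filter fun x : G => b x ≠ none ∧ a x = none).card = 1 ∧
  dcount a b c c' r r' 0 = 1 ∧ ∀ d, d ≠ 0 → dcount a b c c' r r' d + dcount a b c c' r r' (-d) = 2

omit [DecidableEq G] in
theorem bsq_latin {a : G → Option G} {c r : G} (h : GoodSq a c r) : IsLatin (bsq a c r) := by
  obtain ⟨h1, h2, h3, h4⟩ := h
  have inj : ∀ i : G, Function.Injective fun v : G => i + v := fun i => add_right_injective i
  refine ⟨fun i => Finite.injective_iff_bijective.1 ?_, fun j => Finite.injective_iff_bijective.1 ?_⟩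
  · rintro (_ | x) (_ | y) hxy
    · rfl
    · cases i with
      | none => simp [bsq] at hxy
      | some i =>
        simp only [bsq] at hxy
        exfalso
        have : some (i + c) = (some c).map fun v => i + v := rfl
        rw [this] at hxy
        exact h2 _ (Option.map_injective (inj i) hxy).symm
    · cases i with
      | none => simp [bsq] at hxy
      | some i =>
        simp only [bsq] at hxy
        exfalso
        have : some (i + c) = (some c).map fun v => i + v := rfl
        rw [this] at hxy
        exact h2 _ (Option.map_injective (inj i) hxy)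
    · cases i with
      | none => simpa [bsq] using hxy
      | some i =>
        simp only [bsq] at hxy
        have := h1 _ _ (Option.map_injective (inj i) hxy)
        simpa using this
  · have key : ∀ (j x : G), (a (j - x)).map (fun v => x + v) =
        ((a (j - x)).map (fun v => v - (j - x))).map fun v => j + v := by
      intro j x
      rw [Option.map_map]
      congr 1
      funext v
      simp only [Function.comp]
      abel
    rintro (_ | x) (_ | y) hxy
    · rfl
    · cases j with
      | none => simp [bsq] at hxy
      | some j =>
        simp only [bsq] at hxy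
        exfalso
        rw [key] at hxy
        have : some (j + r) = (some r).map fun v => j + v := rfl
        rw [this] at hxy
        exact h4 _ (Option.map_injective (inj j) hxy).symm
    · cases j with
      | none => simp [bsq] at hxy
      | some j =>
        simp only [bsq] at hxy
        exfalso
        rw [key] at hxy
        have : some (j + r) = (some r).map fun v => j + v := rfl
        rw [this] at hxy
        exact h4 _ (Option.map_injective (inj j) hxy)
    · cases j with
      | none => simpa [bsq] using hxy
      | some j =>
        simp only [bsq] at hxy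
        rw [key, key] at hxy
        have := h3 _ _ (Option.map_injective (inj j) hxy)
        simpa using this

theorem bsq_qo {a b : G → Option G} {c c' r r' : G} (h : GoodPair a b c c' r r') :
    QuasiOrth (bsq a c r) (bsq b c' r') := by
  obtain ⟨h0, h1, h2, h3, h4⟩ := h
  refine ⟨fun u => ?_, fun u v huv => ?_⟩
  · cases u with
    | none => exact cnt_bsq_none_none a b c c' r r' h0
    | some u => rw [cnt_bsq_some, sub_self, h3]
  · cases u with
    | none =>
      cases v with
      | none => exact absurd rfl huv
      | some v => rw [cnt_bsq_some_none, cnt_comm', cnt_bsq_some_none, h1, h2]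
    | some u =>
      cases v with
      | none => rw [cnt_bsq_some_none, cnt_comm', cnt_bsq_some_none, h1, h2]
      | some v =>
        rw [cnt_bsq_some, cnt_bsq_some, ← neg_sub v u]
        refine h4 _ fun h => huv ?_
        rw [sub_eq_zero.1 h]

theorem QuasiOrth.symm' {α : Type} [Fintype α] [DecidableEq α] {A B : Sq α} (h : QuasiOrth A B) :
    QuasiOrth B A := by
  refine ⟨fun u => ?_, fun u v huv => ?_⟩
  · rw [cnt_comm']; exact h.1 u
  · rw [cnt_comm' B A u v, cnt_comm' B A v u]; exact h.2 v u huv.symm

/-- a family of data which gives quasi-orthogonal squares of order `|G| + 1` -/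
theorem hasMQOLS_bordered {N m : ℕ} (hm : Fintype.card G = m) (a : Fin N → G → Option G)
    (c r : Fin N → G) (h1 : ∀ k, GoodSq (a k) (c k) (r k))
    (h2 : ∀ k l, k < l → GoodPair (a k) (a l) (c k) (c l) (r k) (r l)) : HasMQOLS N (m + 1) := by
  have hc : Fintype.card (Option G) = m + 1 := by rw [Fintype.card_option, hm]
  have h : IsMQOLS fun k => bsq (a k) (c k) (r k) := by
    refine ⟨fun k => bsq_latin (h1 k), fun k l hkl => ?_⟩
    rcases lt_or_gt_of_ne hkl with hlt | hlt
    · exact bsq_qo (h2 k l hlt)
    · exact QuasiOrth.symm' (bsq_qo (h2 l k hlt))
  exact ⟨_, tr_MQOLS (Fintype.equivFinOfCardEq hc) h⟩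

theorem card_filter_shift (t : G) (P : G → Prop) [DecidablePred P] :
    (univ.filter fun x => P (x - t)).card = (univ.filter P).card :=
  Finset.card_equiv (Equiv.subRight t) fun x => by simp

/-- the bordered squares of the translates of one map -/
theorem hasMQOLS_shift {N m : ℕ} (hm : Fintype.card G = m) (f : G → Option G) (C : Fin N → G)
    (S : List G) (h0 : GoodSq f 0 0) (hC : ∀ k l, k < l → C l - C k ∈ S)
    (hS : ∀ s ∈ S, GoodPair f (fun x => f (x - s)) 0 0 0 (-s)) : HasMQOLS N (m + 1) := by
  refine hasMQOLS_bordered hm (fun k x => f (x - C k)) (fun _ => 0) (fun k => - C k) (fun k => ?_)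
    fun k l hkl => ?_
  · obtain ⟨h1, h2, h3, h4⟩ := h0
    have key : ∀ x, (f (x - C k)).map (fun v => v - x) =
        ((f (x - C k)).map (fun v => v - (x - C k))).map fun v => v - C k := by
      intro x
      rw [Option.map_map]
      congr 1
      funext v
      simp only [Function.comp]
      abel
    have inj : Function.Injective fun v : G => v - C k := sub_left_injective
    refine ⟨fun x y h => ?_, fun x => h2 _, fun x y h => ?_, fun x h => ?_⟩
    · have := h1 _ _ h
      simpa using this
    · rw [key, key] at h
      have := h3 _ _ (Option.map_injective inj h)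
      simpa using this
    · rw [key] at h
      have e : some (- C k) = (some (0 : G)).map fun v => v - C k := by simp
      rw [e] at h
      exact h4 _ (Option.map_injective inj h)
  · obtain ⟨h1, h2, h3, h4, h5⟩ := hS _ (hC k l hkl)
    have e : ∀ x, x - C k - (C l - C k) = x - C l := fun x => by abel
    have hd : ∀ d, dcount (fun x => f (x - C k)) (fun x => f (x - C l)) 0 0 (-C k) (-C l) d =
        dcount f (fun x => f (x - (C l - C k))) 0 0 0 (-(C l - C k)) d := by
      intro d
      unfold dcount
      congr 1
      · have e1 := card_filter_shift (C k)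
          (fun x => (f x).map (fun p => p + d) = f (x - (C l - C k)) ∧ f x ≠ none)
        simp only [e] at e1
        exact e1
      · have : - C l - - C k = -(C l - C k) - 0 := by abel
        rw [this]
    refine ⟨fun x hx => ?_, ?_, ?_, ?_, fun d hd0 => ?_⟩
    · have := h1 _ hx
      simp only [e] at this
      exact this
    · have e1 := card_filter_shift (C k) (fun x => f x ≠ none ∧ f (x - (C l - C k)) = none)
      simp only [e] at e1
      exact e1.trans h2
    · have e1 := card_filter_shift (C k) (fun x => f (x - (C l - C k)) ≠ none ∧ f x = none)
      simp only [e] at e1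
      exact e1.trans h3
    · rw [hd]; exact h4
    · rw [hd, hd]; exact h5 d hd0

/-- a family of data which gives quasi-orthogonal squares of order `|G|`; the square of `g` has the entry
`i + g j` in the cell `(i, j)` -/
theorem hasMQOLS_group {N m : ℕ} (hm : Fintype.card G = m) (g : Fin N → G → G)
    (h1 : ∀ k x y, g k x = g k y → x = y)
    (h2 : ∀ k l, k < l → (univ.filter fun x => g l x - g k x = 0).card = 1 ∧
      ∀ d, d ≠ 0 → (univ.filter fun x => g l x - g k x = d).card +
        (univ.filter fun x => g l x - g k x = -d).card = 2) : HasMQOLS N m := by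
  have hcnt : ∀ (k l : Fin N) (u v : G), cnt (fun i j => i + g k j) (fun i j => i + g l j) u v =
      (univ.filter fun x => g l x - g k x = v - u).card := by
    intro k l u v
    rw [cnt_eq_sum', Finset.card_filter, Finset.sum_comm]
    refine Finset.sum_congr rfl fun x _ => ?_
    by_cases h : g l x - g k x = v - u
    · rw [if_pos h, Finset.sum_eq_single (u - g k x)]
      · rw [if_pos]
        refine ⟨by abel, ?_⟩
        have : g l x = v - u + g k x := by rw [← h]; abel
        rw [this]; abel
      · intro j _ hj
        rw [if_neg]
        rintro ⟨h1, -⟩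
        exact hj (by rw [← h1]; abel)
      · intro h'; exact absurd (mem_univ _) h'
    · rw [if_neg h]
      refine Finset.sum_eq_zero fun j _ => ?_
      rw [if_neg]
      rintro ⟨h1, h2⟩
      exact h (by rw [← h1, ← h2]; abel)
  have hq : ∀ k l, k < l → QuasiOrth (fun i j => i + g k j) (fun i j => i + g l j) := by
    intro k l hkl
    refine ⟨fun u => ?_, fun u v huv => ?_⟩
    · rw [hcnt, sub_self]; exact (h2 k l hkl).1
    · rw [hcnt, hcnt, ← neg_sub v u]
      exact (h2 k l hkl).2 _ fun h => huv (sub_eq_zero.1 h).symm
  have h : IsMQOLS fun k => fun i j => i + g k j := by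
    refine ⟨fun k => ⟨fun i => Finite.injective_iff_bijective.1 ?_,
      fun j => Finite.injective_iff_bijective.1 ?_⟩, fun k l hkl => ?_⟩
    · intro x y hxy
      exact h1 k _ _ (add_left_cancel hxy)
    · intro x y hxy
      exact add_right_cancel (show x + g k j = y + g k j from hxy)
    · rcases lt_or_gt_of_ne hkl with hlt | hlt
      · exact hq k l hlt
      · exact QuasiOrth.symm' (hq l k hlt)
  exact ⟨_, tr_MQOLS (Fintype.equivFinOfCardEq hm) h⟩

instance (a : G → Option G) (c r : G) : Decidable (GoodSq a c r) := by
  unfold GoodSq; infer_instance

instance (a b : G → Option G) (c c' r r' : G) : Decidable (GoodPair a b c c' r r') := by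
  unfold GoodPair; infer_instance

/-- the bordered data over the cyclic group read off a table; the entry `m` stands for `∞` -/
def rd (m : ℕ) [NeZero m] (T : List (List ℕ)) (k : ℕ) (x : Fin m) : Option (Fin m) :=
  if (T.getD k []).getD x 0 = m then none else some (Fin.ofNat m ((T.getD k []).getD x 0))

/-- an element of the cyclic group read off a table -/
def rc (m : ℕ) [NeZero m] (T : List ℕ) (k : ℕ) : Fin m := Fin.ofNat m (T.getD k 0)

end Pool.Agent.Lib.MP_dea8c9_co.MQ
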