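import Pool.Agent.Lib.MP_dea8c9_co.MQCode

/-!
# Fast verification of tables of quasi-orthogonal latin squares, large groups

The counts which occur in the definition of quasi-orthogonality are read off as the digits of one natural
number in base `65536`.
-/

set_option autoImplicit false
set_option linter.unusedSectionVars false

namespace Pool.Agent.Lib.MP_dea8c9_co.MQW

open Finset Pool.Agent.Lib.MP_dea8c9_co.MQ

/-- `f 0 + ... + f (n - 1)` -/
def sumTo (f : ℕ → ℕ) (n : ℕ) : ℕ := Nat.rec 0 (fun k acc => acc + f k) n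

theorem sumTo_eq (f : ℕ → ℕ) (n : ℕ) : sumTo f n = ∑ i ∈ range n, f i := by
  induction n with
  | zero => rfl
  | succ n ih => rw [Finset.sum_range_succ, ← ih]; rfl

theorem sumTo_fin (f : ℕ → ℕ) (n : ℕ) : sumTo f n = ∑ i : Fin n, f i := by
  rw [sumTo_eq, Finset.sum_range]

theorem digits_range (M : ℕ) : ∀ f g : ℕ → ℕ, (∀ i, f i < 65536) → (∀ i, g i < 65536) →
    (∑ i ∈ range M, f i * 65536 ^ i = ∑ i ∈ range M, g i * 65536 ^ i) → ∀ i < M, f i = g i := by
  induction M with
  | zero => intro f g _ _ _ i hi; omega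
  | succ M ih =>
    intro f g hf hg h i hi
    rw [Finset.sum_range_succ', Finset.sum_range_succ'] at h
    have e : ∀ F : ℕ → ℕ, (∑ k ∈ range M, F (k + 1) * 65536 ^ (k + 1)) =
        65536 * ∑ k ∈ range M, F (k + 1) * 65536 ^ k := by
      intro F
      rw [Finset.mul_sum]
      refine Finset.sum_congr rfl fun k _ => ?_
      ring
    rw [e f, e g] at h
    simp only [pow_zero, mul_one] at h
    have h1 := hf 0
    have h2 := hg 0
    have h3 : f 0 = g 0 := by omega
    have h4 : (∑ k ∈ range M, f (k + 1) * 65536 ^ k) = ∑ k ∈ range M, g (k + 1) * 65536 ^ k := by omega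
    cases i with
    | zero => exact h3
    | succ i =>
      exact ih (fun k => f (k + 1)) (fun k => g (k + 1)) (fun k => hf _) (fun k => hg _) h4 i (by omega)

theorem digits_equiv {α : Type} [Fintype α] {m : ℕ} (e : α ≃ Fin m) (f g : α → ℕ)
    (hf : ∀ x, f x < 65536) (hg : ∀ x, g x < 65536)
    (h : ∑ x, f x * 65536 ^ (e x : ℕ) = ∑ x, g x * 65536 ^ (e x : ℕ)) : f = g := by
  rcases Nat.eq_zero_or_pos m with h0 | hm
  · subst h0
    funext x
    exact (e x).elim0
  have key : ∀ F : α → ℕ, (∑ x, F x * 65536 ^ (e x : ℕ)) =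
      ∑ i ∈ range m, F (e.symm ⟨i % m, Nat.mod_lt _ hm⟩) * 65536 ^ i := by
    intro F
    rw [Finset.sum_range, ← Equiv.sum_comp e.symm]
    refine Finset.sum_congr rfl fun i _ => ?_
    have : (⟨(i : ℕ) % m, Nat.mod_lt _ hm⟩ : Fin m) = i := by
      refine Fin.ext ?_
      exact Nat.mod_eq_of_lt i.2
    rw [this, Equiv.apply_symm_apply]
  rw [key f, key g] at h
  have h1 := digits_range m _ _ (fun i => hf _) (fun i => hg _) h
  funext x
  have h2 := h1 (e x) (e x).2
  have : (⟨((e x : Fin m) : ℕ) % m, Nat.mod_lt _ hm⟩ : Fin m) = e x := by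
    refine Fin.ext ?_
    exact Nat.mod_eq_of_lt (e x).2
  rw [this, Equiv.symm_apply_apply] at h2
  exact h2

theorem sum_pow_fiber {α J : Type} [Fintype α] [DecidableEq α] {m : ℕ} (e : α ≃ Fin m)
    (s : Finset J) (D : J → α) : (∑ j ∈ s, 65536 ^ (e (D j) : ℕ)) =
      ∑ x, (s.filter fun j => D j = x).card * 65536 ^ (e x : ℕ) := by
  have : ∀ j ∈ s, 65536 ^ (e (D j) : ℕ) = ∑ x, if D j = x then 65536 ^ (e x : ℕ) else 0 := by
    intro j _
    rw [Finset.sum_ite_eq, if_pos (mem_univ _)]
  rw [Finset.sum_congr rfl this, Finset.sum_comm]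
  refine Finset.sum_congr rfl fun x _ => ?_
  rw [Finset.card_filter, Finset.sum_mul]
  refine Finset.sum_congr rfl fun j _ => ?_
  split_ifs <;> simp

theorem pow_single {α : Type} [Fintype α] [DecidableEq α] {m : ℕ} (e : α ≃ Fin m) (y : α) :
    65536 ^ (e y : ℕ) = ∑ x, (if y = x then 1 else 0) * 65536 ^ (e x : ℕ) := by
  simp

/-- `1 + 65536 + ... + 65536 ^ (n - 1)` -/
def rep (n : ℕ) : ℕ := sumTo (fun i => 65536 ^ i) n

theorem rep_eq {α : Type} [Fintype α] {m : ℕ} (e : α ≃ Fin m) : rep m = ∑ x, 65536 ^ (e x : ℕ) := by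
  unfold rep
  rw [sumTo_fin, ← Equiv.sum_comp e]

/-- an abelian group whose elements are numbered -/
structure Code (G : Type) [AddCommGroup G] (m : ℕ) where
  e : G ≃ Fin m
  sb : ℕ → ℕ → ℕ
  hsb : ∀ x y : G, sb (e x) (e y) = (e (x - y) : ℕ)

/-- the cyclic group -/
def Code.cyc (m : ℕ) [NeZero m] : Code (Fin m) m where
  e := Equiv.refl _
  sb i j := (m - j + i) % m
  hsb x y := by simp [Fin.sub_def]

/-- products of groups -/
def Code.prod {G H : Type} [AddCommGroup G] [AddCommGroup H] {m n : ℕ} (C : Code G m)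
    (D : Code H n) : Code (G × H) (m * n) where
  e := (C.e.prodCongr D.e).trans finProdFinEquiv
  sb i j := n * C.sb (i / n) (j / n) + D.sb (i % n) (j % n)
  hsb x y := by
    have hv : ∀ z : G × H, (((C.e.prodCongr D.e).trans finProdFinEquiv) z : ℕ) =
        (D.e z.2 : ℕ) + n * (C.e z.1 : ℕ) := fun z => rfl
    rw [hv, hv, hv]
    have hd : ∀ z : G × H, ((D.e z.2 : ℕ) + n * (C.e z.1 : ℕ)) / n = C.e z.1 := fun z => by
      have h1 := (D.e z.2).2
      rw [Nat.add_mul_div_left _ _ (by omega), Nat.div_eq_of_lt h1, zero_add]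
    have hr : ∀ z : G × H, ((D.e z.2 : ℕ) + n * (C.e z.1 : ℕ)) % n = D.e z.2 := fun z => by
      rw [Nat.add_mul_mod_self_left, Nat.mod_eq_of_lt (D.e z.2).2]
    rw [hd, hd, hr, hr, C.hsb, D.hsb, add_comm]
    rfl

section coded

variable {G : Type} [AddCommGroup G] [Fintype G] [DecidableEq G] {m : ℕ}

/-- the element with a given number -/
def Code.dec (C : Code G m) (hm : 0 < m) (v : ℕ) : G := C.e.symm ⟨v % m, Nat.mod_lt _ hm⟩

theorem Code.e_dec (C : Code G m) (hm : 0 < m) {v : ℕ} (hv : v < m) : (C.e (C.dec hm v) : ℕ) = v := by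
  unfold Code.dec
  rw [Equiv.apply_symm_apply]
  exact Nat.mod_eq_of_lt hv

theorem Code.sumTo_code (C : Code G m) (f : ℕ → ℕ) : sumTo f m = ∑ x, f (C.e x) := by
  rw [sumTo_fin, ← Equiv.sum_comp C.e]

/-- the check for squares with the entry `i + g j` -/
theorem Code.hasMQOLS_group (C : Code G m) (N : ℕ) (hm : 0 < m) (hm' : 2 * m < 65536)
    (t : ℕ → ℕ → ℕ) (h0 : ∀ k : Fin N, ∀ i : Fin m, t k i < m)
    (h1 : ∀ k : Fin N, sumTo (fun i => 65536 ^ t k i) m = rep m)
    (h2 : ∀ k l : Fin N, k < l → sumTo (fun i => 65536 ^ C.sb (t l i) (t k i) +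
      65536 ^ C.sb (t k i) (t l i)) m = 2 * rep m) : HasMQOLS N m := by
  have hcard : Fintype.card G = m := by rw [Fintype.card_congr C.e, Fintype.card_fin]
  have ht : ∀ (k : Fin N) (x : G), (C.e (C.dec hm (t k (C.e x))) : ℕ) = t k (C.e x) := fun k x =>
    C.e_dec hm (h0 k (C.e x))
  have hle : ∀ (s : Finset G), s.card ≤ m := fun s => by
    rw [← hcard]; exact Finset.card_le_univ s
  refine _root_.Pool.Agent.Lib.MP_dea8c9_co.MQ.hasMQOLS_group hcard (fun k x => C.dec hm (t k (C.e x))) (fun k x y hxy => ?_)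
    (fun k l hkl => ?_)
  · have h := h1 k
    rw [C.sumTo_code, rep_eq C.e] at h
    have e1 : ∀ x, 65536 ^ t k (C.e x) = 65536 ^ (C.e (C.dec hm (t k (C.e x))) : ℕ) := fun x => by
      rw [ht]
    simp_rw [e1] at h
    rw [sum_pow_fiber C.e univ fun x => C.dec hm (t k (C.e x))] at h
    have h' : (∑ x, (univ.filter fun j => C.dec hm (t k (C.e j)) = x).card * 65536 ^ (C.e x : ℕ)) =
        ∑ x, 1 * 65536 ^ (C.e x : ℕ) := by simpa using h
    have h3 := digits_equiv C.e _ _ (fun x => lt_of_le_of_lt (hle _) (by omega))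
      (fun _ => by norm_num) h'
    have h4 := congrFun h3 (C.dec hm (t k (C.e x)))
    rw [Finset.card_eq_one] at h4
    obtain ⟨z, hz⟩ := h4
    have m1 : x ∈ ({z} : Finset G) := by rw [← hz]; simp
    have m2 : y ∈ ({z} : Finset G) := by rw [← hz]; simp [hxy]
    rw [Finset.mem_singleton] at m1 m2
    rw [m1, m2]
  · have h := h2 k l hkl
    rw [C.sumTo_code, rep_eq C.e, Finset.sum_add_distrib] at h
    set D : G → G := fun x => C.dec hm (t l (C.e x)) - C.dec hm (t k (C.e x)) with hD
    have e1 : ∀ x, C.sb (t l (C.e x)) (t k (C.e x)) = (C.e (D x) : ℕ) := fun x => by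
      rw [hD, ← C.hsb, ht, ht]
    have e2 : ∀ x, C.sb (t k (C.e x)) (t l (C.e x)) = (C.e (-D x) : ℕ) := fun x => by
      rw [hD, neg_sub, ← C.hsb, ht, ht]
    simp_rw [e1, e2] at h
    rw [sum_pow_fiber C.e univ D, sum_pow_fiber C.e univ fun x => -D x, ← Finset.sum_add_distrib,
      Finset.mul_sum] at h
    have h' : (∑ x, ((univ.filter fun j => D j = x).card + (univ.filter fun j => -D j = x).card) *
        65536 ^ (C.e x : ℕ)) = ∑ x, 2 * 65536 ^ (C.e x : ℕ) := by
      rw [← h]
      exact Finset.sum_congr rfl fun x _ => by ring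
    have h3 := digits_equiv C.e _ _ (fun x => by
      have a1 := hle (univ.filter fun j => D j = x)
      have a2 := hle (univ.filter fun j => -D j = x)
      omega) (fun _ => by norm_num) h'
    have h4 : ∀ d, (univ.filter fun x => D x = d).card + (univ.filter fun x => D x = -d).card = 2 := by
      intro d
      have := congrFun h3 d
      simp only [neg_eq_iff_eq_neg] at this
      exact this
    refine ⟨?_, fun d _ => h4 d⟩
    have := h4 0
    rw [neg_zero] at this
    have h5 : (univ.filter fun x => D x = 0).card = 1 := by omega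
    exact h5

/-- numbering of the group and `∞` -/
def Code.e' (C : Code G m) : Option G ≃ Fin (m + 1) :=
  (Equiv.optionCongr C.e).trans finSuccEquivLast.symm

theorem Code.e'_none (C : Code G m) : (C.e' none : ℕ) = m := by
  simp [Code.e']

theorem Code.e'_some (C : Code G m) (y : G) : (C.e' (some y) : ℕ) = C.e y := by
  simp [Code.e']

theorem two_of_card {α : Type} [DecidableEq α] {s : Finset α} (h : s.card ≤ 1) {x y : α}
    (hx : x ∈ s) (hy : y ∈ s) : x = y := Finset.card_le_one.1 h x hx y hy

/-- the check for bordered squares -/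
theorem Code.hasMQOLS_bordered (C : Code G m) (N : ℕ) (hm : 0 < m) (hm' : 2 * (m + 2) < 65536)
    (t : ℕ → ℕ → ℕ) (c r : ℕ → ℕ) (h0 : ∀ k : Fin N, ∀ i : Fin m, t k i ≤ m)
    (hcr : ∀ k : Fin N, c k < m ∧ r k < m)
    (h1 : ∀ k : Fin N, sumTo (fun i => 65536 ^ t k i) m + 65536 ^ c k = rep (m + 1))
    (h1' : ∀ k : Fin N, sumTo (fun i => if t k i = m then 0 else 65536 ^ C.sb (t k i) i) m +
      65536 ^ r k = rep m)
    (h3 : ∀ k l : Fin N, k < l → ∀ i : Fin m, t k i = m → t l i ≠ m)
    (h2 : ∀ k l : Fin N, k < l → sumTo (fun i => if t k i = m ∨ t l i = m then 0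
      else 65536 ^ C.sb (t l i) (t k i) + 65536 ^ C.sb (t k i) (t l i)) m +
      ((65536 ^ C.sb (c l) (c k) + 65536 ^ C.sb (c k) (c l)) +
        (65536 ^ C.sb (r l) (r k) + 65536 ^ C.sb (r k) (r l))) = 2 * rep m) :
    HasMQOLS N (m + 1) := by
  have hcard : Fintype.card G = m := by rw [Fintype.card_congr C.e, Fintype.card_fin]
  have hle : ∀ (s : Finset G), s.card ≤ m := fun s => by
    rw [← hcard]; exact Finset.card_le_univ s
  set v : Fin N → G → G := fun k x => C.dec hm (t k (C.e x)) with hv
  set a : Fin N → G → Option G := fun k x => if t k (C.e x) = m then none else some (v k x) with ha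
  have hev : ∀ (k : Fin N) (x : G), t k (C.e x) ≠ m → (C.e (v k x) : ℕ) = t k (C.e x) := fun k x h =>
    C.e_dec hm (lt_of_le_of_ne (h0 k (C.e x)) h)
  have hec : ∀ k : Fin N, (C.e (C.dec hm (c k)) : ℕ) = c k := fun k => C.e_dec hm (hcr k).1
  have her : ∀ k : Fin N, (C.e (C.dec hm (r k)) : ℕ) = r k := fun k => C.e_dec hm (hcr k).2
  have hnone : ∀ (k : Fin N) (x : G), a k x = none ↔ t k (C.e x) = m := fun k x => by
    simp only [ha]; split_ifs with h <;> simp [h]
  have hsome : ∀ (k : Fin N) (x : G), t k (C.e x) ≠ m → a k x = some (v k x) := fun k x h => by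
    simp only [ha]; rw [if_neg h]
  -- counts of the values
  have A1 : ∀ (k : Fin N) (z : Option G), (univ.filter fun x => a k x = z).card +
      (if some (C.dec hm (c k)) = z then 1 else 0) = 1 := by
    intro k z
    have h := h1 k
    rw [C.sumTo_code, rep_eq C.e'] at h
    have e1 : ∀ x, 65536 ^ t k (C.e x) = 65536 ^ (C.e' (a k x) : ℕ) := fun x => by
      by_cases hx : t k (C.e x) = m
      · rw [(hnone k x).2 hx, C.e'_none, hx]
      · rw [hsome k x hx, C.e'_some, hev k x hx]
    have e2 : 65536 ^ c k = 65536 ^ (C.e' (some (C.dec hm (c k))) : ℕ) := by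
      rw [C.e'_some, hec]
    simp_rw [e1] at h
    rw [e2, sum_pow_fiber C.e' univ (a k), pow_single C.e' (some (C.dec hm (c k))),
      ← Finset.sum_add_distrib] at h
    have h' : (∑ z, ((univ.filter fun x => a k x = z).card +
        (if some (C.dec hm (c k)) = z then 1 else 0)) * 65536 ^ (C.e' z : ℕ)) =
        ∑ z, 1 * 65536 ^ (C.e' z : ℕ) := by
      simp only [one_mul]
      rw [← h]
      exact Finset.sum_congr rfl fun x _ => by ring
    have h4 := digits_equiv C.e' _ _ (fun z => by
      have a1 := hle (univ.filter fun x => a k x = z)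
      split_ifs <;> omega) (fun _ => by norm_num) h'
    exact congrFun h4 z
  -- counts of the differences to the argument
  have A2 : ∀ (k : Fin N) (d : G),
      ((univ.filter fun x => t k (C.e x) ≠ m).filter fun x => v k x - x = d).card +
      (if C.dec hm (r k) = d then 1 else 0) = 1 := by
    intro k d
    have h := h1' k
    rw [C.sumTo_code, rep_eq C.e] at h
    have e1 : (∑ x, if t k (C.e x) = m then 0 else 65536 ^ C.sb (t k (C.e x)) (C.e x)) =
        ∑ x ∈ univ.filter (fun x => t k (C.e x) ≠ m), 65536 ^ (C.e (v k x - x) : ℕ) := by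
      rw [Finset.sum_filter]
      refine Finset.sum_congr rfl fun x _ => ?_
      by_cases hx : t k (C.e x) = m
      · simp [hx]
      · rw [if_neg hx, if_pos hx, ← C.hsb, hev k x hx]
    have e2 : 65536 ^ r k = 65536 ^ (C.e (C.dec hm (r k)) : ℕ) := by rw [her]
    rw [e1, e2, sum_pow_fiber C.e _ fun x => v k x - x, pow_single C.e (C.dec hm (r k)),
      ← Finset.sum_add_distrib] at h
    have h' : (∑ d, (((univ.filter fun x => t k (C.e x) ≠ m).filter fun x => v k x - x = d).card +
        (if C.dec hm (r k) = d then 1 else 0)) * 65536 ^ (C.e d : ℕ)) =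
        ∑ d, 1 * 65536 ^ (C.e d : ℕ) := by
      simp only [one_mul]
      rw [← h]
      exact Finset.sum_congr rfl fun x _ => by ring
    have h4 := digits_equiv C.e _ _ (fun z => by
      have a1 := hle ((univ.filter fun x => t k (C.e x) ≠ m).filter fun x => v k x - x = z)
      split_ifs <;> omega) (fun _ => by norm_num) h'
    exact congrFun h4 d
  have A1' : ∀ k, (univ.filter fun x => a k x = none).card = 1 := fun k => by
    have := A1 k none
    simpa using this
  have cle : ∀ k z, (univ.filter fun x => a k x = z).card ≤ 1 := fun k z => by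
    have := A1 k z; omega
  have hsq : ∀ k, GoodSq (a k) (C.dec hm (c k)) (C.dec hm (r k)) := by
    intro k
    refine ⟨fun x y hxy => ?_, fun x hx => ?_, fun x y hxy => ?_, fun x hx => ?_⟩
    · exact two_of_card (cle k (a k x)) (by simp) (by simp [hxy])
    · have := A1 k (some (C.dec hm (c k)))
      rw [if_pos rfl] at this
      have h5 : (univ.filter fun x => a k x = some (C.dec hm (c k))).card = 0 := by omega
      rw [Finset.card_eq_zero] at h5
      have : x ∈ (∅ : Finset G) := by rw [← h5]; simp [hx]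
      simp at this
    · by_cases h5 : t k (C.e x) = m
      · have hx : a k x = none := (hnone k x).2 h5
        rw [hx] at hxy
        have hy : a k y = none := by simpa using hxy.symm
        exact two_of_card (cle k none) (by simp [hx]) (by simp [hy])
      · have hx := hsome k x h5
        by_cases h6 : t k (C.e y) = m
        · rw [hx, (hnone k y).2 h6] at hxy
          simp at hxy
        · rw [hx, hsome k y h6] at hxy
          simp only [Option.map_some, Option.some.injEq] at hxy
          have h7 := A2 k (v k x - x)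
          refine two_of_card (s := (univ.filter fun x => t k (C.e x) ≠ m).filter
            fun z => v k z - z = v k x - x) (by omega) ?_ ?_
          · simp [h5]
          · simp [h6, hxy]
    · by_cases h5 : t k (C.e x) = m
      · rw [(hnone k x).2 h5] at hx
        simp at hx
      · rw [hsome k x h5] at hx
        simp only [Option.map_some, Option.some.injEq] at hx
        have h7 := A2 k (C.dec hm (r k))
        rw [if_pos rfl] at h7
        have h8 : ((univ.filter fun x => t k (C.e x) ≠ m).filter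
            fun z => v k z - z = C.dec hm (r k)).card = 0 := by omega
        rw [Finset.card_eq_zero] at h8
        have : x ∈ (∅ : Finset G) := by rw [← h8]; simp [h5, hx]
        simp at this
  refine _root_.Pool.Agent.Lib.MP_dea8c9_co.MQ.hasMQOLS_bordered hcard a (fun k => C.dec hm (c k)) (fun k => C.dec hm (r k)) hsq
    fun k l hkl => ?_
  have hdis : ∀ x, a k x = none → a l x ≠ none := fun x hx h' =>
    h3 k l hkl (C.e x) ((hnone k x).1 hx) ((hnone l x).1 h')
  have key : ∀ d, dcount (a k) (a l) (C.dec hm (c k)) (C.dec hm (c l)) (C.dec hm (r k))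
      (C.dec hm (r l)) d + dcount (a k) (a l) (C.dec hm (c k)) (C.dec hm (c l)) (C.dec hm (r k))
      (C.dec hm (r l)) (-d) = 2 := by
    have h := h2 k l hkl
    rw [C.sumTo_code, rep_eq C.e] at h
    set s : Finset G := univ.filter fun x => ¬ (t k (C.e x) = m ∨ t l (C.e x) = m) with hs
    set D : G → G := fun x => v l x - v k x with hD
    have e1 : (∑ x, if t k (C.e x) = m ∨ t l (C.e x) = m then 0
        else 65536 ^ C.sb (t l (C.e x)) (t k (C.e x)) + 65536 ^ C.sb (t k (C.e x)) (t l (C.e x))) =
        (∑ x ∈ s, 65536 ^ (C.e (D x) : ℕ)) + ∑ x ∈ s, 65536 ^ (C.e (-D x) : ℕ) := by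
      rw [hs, ← Finset.sum_add_distrib, Finset.sum_filter]
      refine Finset.sum_congr rfl fun x _ => ?_
      by_cases hx : t k (C.e x) = m ∨ t l (C.e x) = m
      · simp [hx]
      · rw [if_neg hx, if_pos hx]
        push Not at hx
        rw [hD, neg_sub, ← C.hsb, ← C.hsb, hev k x hx.1, hev l x hx.2]
    have e2 : ∀ i j : G, 65536 ^ C.sb (C.e i) (C.e j) = 65536 ^ (C.e (i - j) : ℕ) := fun i j => by
      rw [C.hsb]
    rw [e1, ← hec k, ← hec l, ← her k, ← her l, e2, e2, e2, e2, sum_pow_fiber C.e s D,
      sum_pow_fiber C.e s fun x => -D x, pow_single C.e (C.dec hm (c l) - C.dec hm (c k)),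
      pow_single C.e (C.dec hm (c k) - C.dec hm (c l)),
      pow_single C.e (C.dec hm (r l) - C.dec hm (r k)),
      pow_single C.e (C.dec hm (r k) - C.dec hm (r l)),
      ← Finset.sum_add_distrib, ← Finset.sum_add_distrib, ← Finset.sum_add_distrib,
      ← Finset.sum_add_distrib, ← Finset.sum_add_distrib, Finset.mul_sum] at h
    have hdc : ∀ d, dcount (a k) (a l) (C.dec hm (c k)) (C.dec hm (c l)) (C.dec hm (r k))
        (C.dec hm (r l)) d = (s.filter fun x => D x = d).card +
        ((if C.dec hm (c l) - C.dec hm (c k) = d then 1 else 0) +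
          if C.dec hm (r l) - C.dec hm (r k) = d then 1 else 0) := by
      intro d
      unfold dcount
      congr 2
      ext x
      simp only [mem_filter, mem_univ, true_and, hs, ne_eq]
      constructor
      · rintro ⟨h5, h6⟩
        have h7 : t k (C.e x) ≠ m := fun h' => h6 ((hnone k x).2 h')
        rw [hsome k x h7] at h5
        have h8 : t l (C.e x) ≠ m := fun h' => by
          rw [(hnone l x).2 h'] at h5
          simp at h5
        rw [hsome l x h8] at h5
        simp only [Option.map_some, Option.some.injEq] at h5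
        refine ⟨by push Not; exact ⟨h7, h8⟩, ?_⟩
        rw [hD]
        simp only
        rw [← h5]; abel
      · rintro ⟨h5, h6⟩
        push Not at h5
        rw [hsome k x h5.1, hsome l x h5.2]
        simp only [Option.map_some, Option.some.injEq, reduceCtorEq, not_false_eq_true, and_true]
        rw [← h6, hD]
        simp only
        abel
    set f : G → ℕ := fun d => (s.filter fun x => D x = d).card + (s.filter fun x => -D x = d).card +
      (((if C.dec hm (c l) - C.dec hm (c k) = d then 1 else 0) +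
        (if C.dec hm (c k) - C.dec hm (c l) = d then 1 else 0)) +
        ((if C.dec hm (r l) - C.dec hm (r k) = d then 1 else 0) +
        (if C.dec hm (r k) - C.dec hm (r l) = d then 1 else 0))) with hf
    have h' : (∑ d, f d * 65536 ^ (C.e d : ℕ)) = ∑ d, 2 * 65536 ^ (C.e d : ℕ) := by
      rw [← h]
      refine Finset.sum_congr rfl fun x _ => ?_
      simp only [hf]
      ring
    have h4 := digits_equiv C.e _ _ (fun z => by
      have a1 := hle (s.filter fun x => D x = z)
      have a2 := hle (s.filter fun x => -D x = z)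
      simp only [hf]
      split_ifs <;> omega) (fun _ => by norm_num) h'
    intro d
    have h5 := congrFun h4 d
    rw [hdc, hdc, ← h5]
    simp only [hf]
    have n1 : ∀ y : G, (-y = d) = (y = -d) := fun y => by rw [neg_eq_iff_eq_neg]
    have n2 : (C.dec hm (c k) - C.dec hm (c l) = d) = (C.dec hm (c l) - C.dec hm (c k) = -d) := by
      rw [← n1, neg_sub]
    have n3 : (C.dec hm (r k) - C.dec hm (r l) = d) = (C.dec hm (r l) - C.dec hm (r k) = -d) := by
      rw [← n1, neg_sub]
    simp only [n1, n2, n3]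
    ring
  refine ⟨hdis, ?_, ?_, ?_, fun d _ => key d⟩
  · rw [← A1' l]
    congr 1
    ext x
    simp only [mem_filter, mem_univ, true_and]
    exact ⟨fun h => h.2, fun h => ⟨fun h' => hdis x h' h, h⟩⟩
  · rw [← A1' k]
    congr 1
    ext x
    simp only [mem_filter, mem_univ, true_and]
    exact ⟨fun h => h.2, fun h => ⟨hdis x h, h⟩⟩
  · have := key 0
    rw [neg_zero] at this
    omega

end coded

end Pool.Agent.Lib.MP_dea8c9_co.MQW
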