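import Pool.Agent.Lib.MP_dea8c9_co.MQBasic

/-!
# Wilson's construction with a quasi-orthogonal filling

If there are `N` orthogonal latin squares of the orders `m` and `m + 1`, `N + 1` of order `t`, and `N` mutually
quasi-orthogonal latin squares of order `u ≤ t`, then there are `N` mutually quasi-orthogonal latin squares of order
`m t + u`.  The points are the pairs `(x, i)`, `x` in a set `T` of size `t`, `i` in a set `M` of size `m`, and the
elements of a set `U` of size `u`.  A cell `(x, y)` of the outer squares is replaced by squares of order `m`, or, if the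
additional outer square has an entry belonging to an element `e` of `U`, by squares of order `m + 1` on
`M ∪ {e}` without the cell `(e, e)`; the corner `U × U` is filled with the quasi-orthogonal squares.
-/

set_option autoImplicit false
set_option linter.unusedSectionVars false

namespace Pool.Agent.Lib.MP_dea8c9_co.MQWilson

open Finset Pool.Agent.Lib.MP_dea8c9_co Pool.Agent.Lib.MP_dea8c9_co.MQ

/-- the points of the new squares -/
abbrev Pt (T M U : Type) : Type := (T × M) ⊕ U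

/-- the points of the block with the outer coordinate `x` and the extra element `e` -/
def emb {T M U : Type} (x : T) (e : U) : Option M → Pt T M U
  | some i => Sum.inl (x, i)
  | none => Sum.inr e

theorem emb_inl {T M U : Type} {x : T} {e : U} {z : Option M} {q : T × M}
    (h : emb x e z = Sum.inl q) : x = q.1 ∧ z = some q.2 := by
  cases z with
  | none => simp [emb] at h
  | some i =>
    simp only [emb, Sum.inl.injEq] at h
    rw [← h]; exact ⟨rfl, rfl⟩

theorem emb_inr {T M U : Type} {x : T} {e e' : U} {z : Option M}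
    (h : emb x e z = (Sum.inr e' : Pt T M U)) : z = none ∧ e = e' := by
  cases z with
  | none =>
    simp only [emb, Sum.inr.injEq] at h
    exact ⟨rfl, h⟩
  | some i => simp [emb] at h

theorem emb_emb {T M U : Type} {x x' : T} {e e' : U} {z z' : Option M}
    (h : (emb x e z : Pt T M U) = emb x' e' z') :
    (z = none ∧ z' = none ∧ e = e') ∨ (z ≠ none ∧ z = z' ∧ x = x') := by
  cases z with
  | none =>
    have := emb_inr h.symm
    exact Or.inl ⟨rfl, this.1, this.2.symm⟩
  | some i =>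
    have := emb_inl h.symm
    exact Or.inr ⟨by simp, this.2.symm, this.1.symm⟩

/-- the outer data: an additional outer square and the cells which get an extra element -/
structure Dat (T U : Type) where
  O0 : Sq T
  D : U → T
  g : T → Option U
  ri : T → T → T
  ci : T → T → T
  hg : ∀ d e, g d = some e ↔ D e = d
  hri : ∀ x d, O0 x (ri x d) = d
  hri' : ∀ x y, ri x (O0 x y) = y
  hci : ∀ y d, O0 (ci y d) y = d
  hci' : ∀ x y, ci y (O0 x y) = x

variable {T M U : Type}

/-- the new square -/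
def W (δ : Dat T U) (O : Sq T) (A : Sq M) (B : Sq (Option M)) (C : Sq U) : Sq (Pt T M U)
  | Sum.inl p, Sum.inl q => match δ.g (δ.O0 p.1 q.1) with
      | none => Sum.inl (O p.1 q.1, A p.2 q.2)
      | some e => emb (O p.1 q.1) e (B (some p.2) (some q.2))
  | Sum.inl p, Sum.inr e => emb (O p.1 (δ.ri p.1 (δ.D e))) e (B (some p.2) none)
  | Sum.inr e, Sum.inl q => emb (O (δ.ci q.1 (δ.D e)) q.1) e (B none (some q.2))
  | Sum.inr e, Sum.inr e' => Sum.inr (C e e')

theorem W_none (δ : Dat T U) (O : Sq T) (A : Sq M) (B : Sq (Option M)) (C : Sq U) {x y : T}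
    (h : δ.g (δ.O0 x y) = none) (i j : M) :
    W δ O A B C (Sum.inl (x, i)) (Sum.inl (y, j)) = Sum.inl (O x y, A i j) := by
  simp only [W]
  rw [h]

theorem W_some (δ : Dat T U) (O : Sq T) (A : Sq M) (B : Sq (Option M)) (C : Sq U) {x y : T} {e : U}
    (h : δ.D e = δ.O0 x y) (i j : Option M) (hij : ¬ (i = none ∧ j = none)) :
    W δ O A B C (emb x e i) (emb y e j) = emb (O x y) e (B i j) := by
  cases i with
  | none =>
    cases j with
    | none => exact absurd ⟨rfl, rfl⟩ hij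
    | some j =>
      simp only [emb, W]
      rw [h, δ.hci']
  | some i =>
    cases j with
    | none =>
      simp only [emb, W]
      rw [h, δ.hri']
    | some j =>
      have hg : δ.g (δ.O0 x y) = some e := (δ.hg _ _).2 h
      simp only [emb, W]
      rw [hg]

theorem W_corner (δ : Dat T U) (O : Sq T) (A : Sq M) (B : Sq (Option M)) (C : Sq U) (e e' : U) :
    W δ O A B C (Sum.inr e) (Sum.inr e') = Sum.inr (C e e') := rfl

theorem cell_cases (δ : Dat T U) (r c : Pt T M U) (h : ¬ ∃ e e', r = Sum.inr e ∧ c = Sum.inr e') :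
    (∃ x y i j, δ.g (δ.O0 x y) = none ∧ r = Sum.inl (x, i) ∧ c = Sum.inl (y, j)) ∨
    (∃ x y e i j, δ.D e = δ.O0 x y ∧ ¬ (i = none ∧ j = none) ∧ r = emb x e i ∧ c = emb y e j) := by
  rcases r with ⟨x, i⟩ | e
  · rcases c with ⟨y, j⟩ | e
    · cases hg : δ.g (δ.O0 x y) with
      | none => exact Or.inl ⟨x, y, i, j, hg, rfl, rfl⟩
      | some e => exact Or.inr ⟨x, y, e, some i, some j, (δ.hg _ _).1 hg, by simp, rfl, rfl⟩
    · exact Or.inr ⟨x, δ.ri x (δ.D e), e, some i, none, (δ.hri _ _).symm, by simp, rfl, rfl⟩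
  · rcases c with ⟨y, j⟩ | e'
    · exact Or.inr ⟨δ.ci y (δ.D e), y, e, none, some j, (δ.hci _ _).symm, by simp, rfl, rfl⟩
    · exact absurd ⟨e, e', rfl, rfl⟩ h

theorem D_inj (δ : Dat T U) {e e' : U} (h : δ.D e = δ.D e') : e = e' := by
  have h1 := (δ.hg _ _).2 h
  have h2 := (δ.hg _ _).2 (rfl : δ.D e' = δ.D e')
  rw [h1] at h2
  exact Option.some.inj h2

/-- the pair map of two squares is injective -/
def PI {α : Type} (L L' : Sq α) : Prop :=
  ∀ x y x' y', L x y = L x' y' → L' x y = L' x' y' → x = x' ∧ y = y'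

theorem pair_inj (δ : Dat T U) {O O' : Sq T} {A A' : Sq M} {B B' : Sq (Option M)} {C C' : Sq U}
    (hOO : PI O O') (hO : PI O δ.O0) (hO' : PI O' δ.O0) (hA : PI A A') (hB : PI B B')
    (b0 : B none none = none) (b0' : B' none none = none)
    (r c r' c' : Pt T M U) (h : ¬ ∃ e e', r = Sum.inr e ∧ c = Sum.inr e')
    (h' : ¬ ∃ e e', r' = Sum.inr e ∧ c' = Sum.inr e')
    (e1 : W δ O A B C r c = W δ O A B C r' c') (e2 : W δ O' A' B' C' r c = W δ O' A' B' C' r' c') :
    r = r' ∧ c = c' := by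
  rcases cell_cases δ r c h with ⟨x, y, i, j, hn, rfl, rfl⟩ | ⟨x, y, e, i, j, hn, hij, rfl, rfl⟩ <;>
  rcases cell_cases δ r' c' h' with ⟨x', y', i', j', hn', rfl, rfl⟩ |
    ⟨x', y', e', i', j', hn', hij', rfl, rfl⟩
  · rw [W_none δ _ _ _ _ hn, W_none δ _ _ _ _ hn'] at e1 e2
    simp only [Sum.inl.injEq, Prod.mk.injEq] at e1 e2
    obtain ⟨a1, a2⟩ := hOO _ _ _ _ e1.1 e2.1
    obtain ⟨a3, a4⟩ := hA _ _ _ _ e1.2 e2.2
    rw [a1, a2, a3, a4]; exact ⟨rfl, rfl⟩
  · rw [W_none δ _ _ _ _ hn, W_some δ _ _ _ _ hn' _ _ hij'] at e1 e2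
    have q1 := (emb_inl e1.symm).1
    have q2 := (emb_inl e2.symm).1
    obtain ⟨a1, a2⟩ := hOO _ _ _ _ q1 q2
    rw [← a1, ← a2, ← hn', (δ.hg _ _).2 rfl] at hn
    simp at hn
  · rw [W_none δ _ _ _ _ hn', W_some δ _ _ _ _ hn _ _ hij] at e1 e2
    have q1 := (emb_inl e1).1
    have q2 := (emb_inl e2).1
    obtain ⟨a1, a2⟩ := hOO _ _ _ _ q1 q2
    rw [← a1, ← a2, ← hn, (δ.hg _ _).2 rfl] at hn'
    simp at hn'
  · rw [W_some δ _ _ _ _ hn _ _ hij, W_some δ _ _ _ _ hn' _ _ hij'] at e1 e2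
    rcases emb_emb e1 with ⟨z1, z1', z2⟩ | ⟨z1, z1', z2⟩ <;>
    rcases emb_emb e2 with ⟨w1, w1', w2⟩ | ⟨w1, w1', w2⟩
    · exact absurd (hB _ _ _ _ (z1.trans b0.symm) (w1.trans b0'.symm)) hij
    · obtain ⟨a1, a2⟩ := hO' _ _ _ _ w2 (by rw [← hn, ← hn', z2])
      obtain ⟨a3, a4⟩ := hB _ _ _ _ (z1.trans z1'.symm) w1'
      rw [a1, a2, a3, a4, z2]; exact ⟨rfl, rfl⟩
    · obtain ⟨a1, a2⟩ := hO _ _ _ _ z2 (by rw [← hn, ← hn', w2])
      obtain ⟨a3, a4⟩ := hB _ _ _ _ z1' (w1.trans w1'.symm)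
      rw [a1, a2, a3, a4, w2]; exact ⟨rfl, rfl⟩
    · obtain ⟨a1, a2⟩ := hOO _ _ _ _ z2 w2
      obtain ⟨a3, a4⟩ := hB _ _ _ _ z1' w1'
      have a5 : e = e' := D_inj δ (by rw [hn, hn', a1, a2])
      rw [a1, a2, a3, a4, a5]; exact ⟨rfl, rfl⟩

theorem not_both (δ : Dat T U) {O O' : Sq T} {A A' : Sq M} {B B' : Sq (Option M)} {C C' : Sq U}
    (hB : PI B B') (b0 : B none none = none) (b0' : B' none none = none)
    (r c : Pt T M U) (h : ¬ ∃ e e', r = Sum.inr e ∧ c = Sum.inr e') {u v : U}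
    (e1 : W δ O A B C r c = Sum.inr u) (e2 : W δ O' A' B' C' r c = Sum.inr v) : False := by
  rcases cell_cases δ r c h with ⟨x, y, i, j, hn, rfl, rfl⟩ | ⟨x, y, e, i, j, hn, hij, rfl, rfl⟩
  · rw [W_none δ _ _ _ _ hn] at e1
    simp at e1
  · rw [W_some δ _ _ _ _ hn _ _ hij] at e1 e2
    exact hij (hB _ _ _ _ ((emb_inr e1).1.trans b0.symm) ((emb_inr e2).1.trans b0'.symm))

/-- rows -/
theorem row_inj (δ : Dat T U) {O : Sq T} {A : Sq M} {B : Sq (Option M)} {C : Sq U}
    (rO : ∀ x, Function.Injective (O x)) (rA : ∀ i, Function.Injective (A i))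
    (rB : ∀ i, Function.Injective (B i)) (rC : ∀ e, Function.Injective (C e))
    (hO : PI O δ.O0) (b0 : B none none = none) (r : Pt T M U) :
    Function.Injective (W δ O A B C r) := by
  intro c c' hc
  have r0 : ∀ x y y', δ.O0 x y = δ.O0 x y' → y = y' := fun x y y' h => by
    rw [← δ.hri' x y, h, δ.hri']
  rcases r with ⟨x, i⟩ | e
  · have n1 : ∀ c : Pt T M U, ¬ ∃ e e', (Sum.inl (x, i) : Pt T M U) = Sum.inr e ∧ c = Sum.inr e' := by
      rintro c ⟨e, e', h, -⟩
      simp at h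
    rcases cell_cases δ _ c (n1 c) with ⟨x1, y, i1, j, hn, hr, rfl⟩ | ⟨x1, y, e, i1, j, hn, hij, hr, rfl⟩ <;>
    rcases cell_cases δ _ c' (n1 c') with ⟨x2, y', i2, j', hn', hr', rfl⟩ |
      ⟨x2, y', e', i2, j', hn', hij', hr', rfl⟩
    · simp only [Sum.inl.injEq, Prod.mk.injEq] at hr hr'
      obtain ⟨rfl, rfl⟩ := hr
      obtain ⟨rfl, rfl⟩ := hr'
      rw [W_none δ _ _ _ _ hn, W_none δ _ _ _ _ hn'] at hc
      simp only [Sum.inl.injEq, Prod.mk.injEq] at hc
      rw [rO _ hc.1, rA _ hc.2]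
    · simp only [Sum.inl.injEq, Prod.mk.injEq] at hr
      obtain ⟨rfl, rfl⟩ := hr
      rw [W_none δ _ _ _ _ hn, hr', W_some δ _ _ _ _ hn' _ _ hij'] at hc
      have q1 : O x2 y' = O x y := (emb_inl hc.symm).1
      have q2 : x2 = x := (emb_inl hr'.symm).1
      rw [q2] at q1
      have q3 := rO _ q1
      rw [← q3, ← q2, ← hn', (δ.hg _ _).2 rfl] at hn
      simp at hn
    · simp only [Sum.inl.injEq, Prod.mk.injEq] at hr'
      obtain ⟨rfl, rfl⟩ := hr'
      rw [W_none δ _ _ _ _ hn', hr, W_some δ _ _ _ _ hn _ _ hij] at hc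
      have q1 : O x1 y = O x y' := (emb_inl hc).1
      have q2 : x1 = x := (emb_inl hr.symm).1
      rw [q2] at q1
      have q3 := rO _ q1
      rw [← q3, ← q2, ← hn, (δ.hg _ _).2 rfl] at hn'
      simp at hn'
    · have q1 : x1 = x ∧ i1 = some i := emb_inl hr.symm
      have q2 : x2 = x ∧ i2 = some i := emb_inl hr'.symm
      obtain ⟨q11, q12⟩ := q1
      obtain ⟨q21, q22⟩ := q2
      subst q11 q12 q22
      subst q21
      have hc' : emb (O x2 y) e (B (some i) j) = (emb (O x2 y') e' (B (some i) j') : Pt T M U) := by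
        rw [← W_some δ O A B C hn _ _ hij, ← W_some δ O A B C hn' _ _ hij']
        exact hc
      rcases emb_emb hc' with ⟨z1, z1', z2⟩ | ⟨z1, z1', z2⟩
      · have a1 := r0 _ _ _ (by rw [← hn, ← hn', z2] : δ.O0 x2 y = δ.O0 x2 y')
        have a2 := rB _ (z1.trans z1'.symm)
        rw [a1, a2, z2]
      · have a1 := rO _ z2
        have a2 := rB _ z1'
        have a5 : e = e' := D_inj δ (by rw [hn, hn', a1])
        rw [a1, a2, a5]
  · rcases c with ⟨y, j⟩ | e1 <;> rcases c' with ⟨y', j'⟩ | e2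
    · simp only [W] at hc
      rcases emb_emb hc with ⟨z1, z1', z2⟩ | ⟨z1, z1', z2⟩
      · have := rB _ (z1.trans b0.symm)
        simp at this
      · have := hO _ _ _ _ z2 (by rw [δ.hci, δ.hci])
        have a2 := rB _ z1'
        simp only [Option.some.injEq] at a2
        rw [this.2, a2]
    · simp only [W] at hc
      have := rB _ ((emb_inr hc).1.trans b0.symm)
      simp at this
    · simp only [W] at hc
      have := rB _ ((emb_inr hc.symm).1.trans b0.symm)
      simp at this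
    · simp only [W, Sum.inr.injEq] at hc
      rw [rC _ hc]

/-- the transposed data -/
def Dat.tp (δ : Dat T U) : Dat T U where
  O0 x y := δ.O0 y x
  D := δ.D
  g := δ.g
  ri := δ.ci
  ci := δ.ri
  hg := δ.hg
  hri := δ.hci
  hri' := fun x y => δ.hci' y x
  hci := δ.hri
  hci' := fun x y => δ.hri' y x

theorem W_tp (δ : Dat T U) (O : Sq T) (A : Sq M) (B : Sq (Option M)) (C : Sq U) (r c : Pt T M U) :
    W δ.tp (fun x y => O y x) (fun x y => A y x) (fun x y => B y x) (fun x y => C y x) c r =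
      W δ O A B C r c := by
  rcases r with ⟨x, i⟩ | e <;> rcases c with ⟨y, j⟩ | e' <;> rfl

theorem col_inj (δ : Dat T U) {O : Sq T} {A : Sq M} {B : Sq (Option M)} {C : Sq U}
    (rO : ∀ y, Function.Injective fun x => O x y) (rA : ∀ j, Function.Injective fun i => A i j)
    (rB : ∀ j, Function.Injective fun i => B i j) (rC : ∀ e, Function.Injective fun x => C x e)
    (hO : PI O δ.O0) (b0 : B none none = none) (c : Pt T M U) :
    Function.Injective fun r => W δ O A B C r c := by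
  have h := row_inj δ.tp (O := fun x y => O y x) (A := fun x y => A y x) (B := fun x y => B y x)
    (C := fun x y => C y x) rO rA rB rC (fun x y x' y' h1 h2 => (hO _ _ _ _ h1 h2).symm) b0 c
  intro r r' hr
  apply h
  rw [W_tp, W_tp]
  exact hr

section count

variable [Fintype T] [DecidableEq T] [Fintype M] [DecidableEq M] [Fintype U] [DecidableEq U]

theorem orth_PI {α : Type} [Fintype α] [DecidableEq α] {L L' : Sq α} (h : Orth L L') : PI L L' := by
  intro x y x' y' h1 h2
  have h3 := h (L x y) (L' x y)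
  unfold cnt at h3
  rw [Finset.card_eq_one] at h3
  obtain ⟨p, hp⟩ := h3
  have m1 : (x, y) ∈ ({p} : Finset (α × α)) := by rw [← hp]; simp
  have m2 : (x', y') ∈ ({p} : Finset (α × α)) := by rw [← hp]; simp [h1, h2]
  rw [Finset.mem_singleton] at m1 m2
  have := m1.trans m2.symm
  exact ⟨congrArg Prod.fst this, congrArg Prod.snd this⟩

theorem cnt_corner (δ : Dat T U) {O O' : Sq T} {A A' : Sq M} {B B' : Sq (Option M)} {C C' : Sq U}
    (hB : PI B B') (b0 : B none none = none) (b0' : B' none none = none) (u v : U) :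
    cnt (W δ O A B C) (W δ O' A' B' C') (Sum.inr u) (Sum.inr v) = cnt C C' u v := by
  unfold cnt
  refine (Finset.card_bij (fun p _ => ((Sum.inr p.1, Sum.inr p.2) : Pt T M U × Pt T M U)) ?_ ?_ ?_).symm
  · intro p hp
    have hp' := (Finset.mem_filter.1 hp).2
    refine Finset.mem_filter.2 ⟨mem_univ _, ?_, ?_⟩
    · rw [W_corner, hp'.1]
    · rw [W_corner, hp'.2]
  · intro p _ p' _ h
    simp only [Prod.mk.injEq, Sum.inr.injEq] at h
    exact Prod.ext h.1 h.2
  · rintro ⟨r, c⟩ hp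
    obtain ⟨h1, h2⟩ := (Finset.mem_filter.1 hp).2
    by_cases h : ∃ e e', r = Sum.inr e ∧ c = Sum.inr e'
    · obtain ⟨e, e', rfl, rfl⟩ := h
      refine ⟨(e, e'), Finset.mem_filter.2 ⟨mem_univ _, ?_, ?_⟩, rfl⟩
      · simpa [W_corner] using h1
      · simpa [W_corner] using h2
    · exact (not_both δ hB b0 b0' r c h h1 h2).elim

theorem cnt_other (δ : Dat T U) {O O' : Sq T} {A A' : Sq M} {B B' : Sq (Option M)} {C C' : Sq U}
    (hOO : PI O O') (hO : PI O δ.O0) (hO' : PI O' δ.O0) (hA : PI A A') (hB : PI B B')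
    (b0 : B none none = none) (b0' : B' none none = none) (P Q : Pt T M U)
    (hPQ : ¬ ∃ e e', P = Sum.inr e ∧ Q = Sum.inr e') :
    cnt (W δ O A B C) (W δ O' A' B' C') P Q = 1 := by
  classical
  set ψ : Pt T M U × Pt T M U → Pt T M U × Pt T M U := fun p =>
    if (∃ e e', p.1 = Sum.inr e ∧ p.2 = Sum.inr e') then p
    else (W δ O A B C p.1 p.2, W δ O' A' B' C' p.1 p.2) with hψ
  have hinj : Function.Injective ψ := by
    rintro ⟨r, c⟩ ⟨r', c'⟩ h
    simp only [hψ] at h
    by_cases h1 : ∃ e e', r = Sum.inr e ∧ c = Sum.inr e' <;>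
    by_cases h2 : ∃ e e', r' = Sum.inr e ∧ c' = Sum.inr e'
    · rw [if_pos h1, if_pos h2] at h; exact h
    · rw [if_pos h1, if_neg h2] at h
      obtain ⟨e, e', rfl, rfl⟩ := h1
      simp only [Prod.mk.injEq] at h
      exact (not_both δ hB b0 b0' r' c' h2 h.1.symm h.2.symm).elim
    · rw [if_neg h1, if_pos h2] at h
      obtain ⟨e, e', rfl, rfl⟩ := h2
      simp only [Prod.mk.injEq] at h
      exact (not_both δ hB b0 b0' r c h1 h.1 h.2).elim
    · rw [if_neg h1, if_neg h2] at h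
      simp only [Prod.mk.injEq] at h
      obtain ⟨a1, a2⟩ := pair_inj δ hOO hO hO' hA hB b0 b0' r c r' c' h1 h2 h.1 h.2
      rw [a1, a2]
  have hsur : Function.Surjective ψ := Finite.injective_iff_surjective.1 hinj
  obtain ⟨⟨r, c⟩, hrc⟩ := hsur (P, Q)
  have hn : ¬ ∃ e e', r = Sum.inr e ∧ c = Sum.inr e' := by
    intro h
    simp only [hψ] at hrc
    rw [if_pos h] at hrc
    obtain ⟨e, e', rfl, rfl⟩ := h
    simp only [Prod.mk.injEq] at hrc
    exact hPQ ⟨e, e', hrc.1.symm, hrc.2.symm⟩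
  have hrc' := hrc
  simp only [hψ] at hrc'
  rw [if_neg hn] at hrc'
  simp only [Prod.mk.injEq] at hrc'
  unfold cnt
  rw [Finset.card_eq_one]
  refine ⟨(r, c), ?_⟩
  ext ⟨r', c'⟩
  simp only [Finset.mem_filter, mem_univ, true_and, Finset.mem_singleton]
  constructor
  · rintro ⟨h1, h2⟩
    have hn' : ¬ ∃ e e', r' = Sum.inr e ∧ c' = Sum.inr e' := by
      rintro ⟨e, e', rfl, rfl⟩
      rw [W_corner] at h1 h2
      exact hPQ ⟨_, _, h1.symm, h2.symm⟩
    obtain ⟨a1, a2⟩ := pair_inj δ hOO hO hO' hA hB b0 b0' r' c' r c hn' hn (h1.trans hrc'.1.symm)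
      (h2.trans hrc'.2.symm)
    rw [a1, a2]
  · intro h
    simp only [Prod.mk.injEq] at h
    rw [h.1, h.2]
    exact hrc'

theorem W_MQOLS {N : ℕ} (δ : Dat T U) {O : Fin N → Sq T} {A : Fin N → Sq M}
    {B : Fin N → Sq (Option M)} {C : Fin N → Sq U} (hO : IsMOLS O) (hO0 : ∀ k, Orth (O k) δ.O0)
    (hA : IsMOLS A) (hB : IsMOLS B) (hC : IsMQOLS C) (b0 : ∀ k, B k none none = none) :
    IsMQOLS fun k => W δ (O k) (A k) (B k) (C k) := by
  refine ⟨fun k => ⟨fun r => ?_, fun c => ?_⟩, fun k l hkl => ?_⟩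
  · exact Finite.injective_iff_bijective.1 (row_inj δ (fun x => ((hO.1 k).1 x).1)
      (fun x => ((hA.1 k).1 x).1) (fun x => ((hB.1 k).1 x).1) (fun x => ((hC.1 k).1 x).1)
      (orth_PI (hO0 k)) (b0 k) r)
  · exact Finite.injective_iff_bijective.1 (col_inj δ (fun x => ((hO.1 k).2 x).1)
      (fun x => ((hA.1 k).2 x).1) (fun x => ((hB.1 k).2 x).1) (fun x => ((hC.1 k).2 x).1)
      (orth_PI (hO0 k)) (b0 k) c)
  · have h1 := fun P Q h => cnt_other δ (C := C k) (C' := C l) (orth_PI (hO.2 k l hkl))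
      (orth_PI (hO0 k)) (orth_PI (hO0 l)) (orth_PI (hA.2 k l hkl)) (orth_PI (hB.2 k l hkl)) (b0 k)
      (b0 l) P Q h
    have h2 := fun u v => cnt_corner δ (O := O k) (O' := O l) (A := A k) (A' := A l) (C := C k)
      (C' := C l) (orth_PI (hB.2 k l hkl)) (b0 k) (b0 l) u v
    refine ⟨fun P => ?_, fun P Q hPQ => ?_⟩
    · rcases P with p | u
      · exact h1 _ _ (by rintro ⟨e, e', h, -⟩; simp at h)
      · rw [h2]; exact (hC.2 k l hkl).1 u
    · rcases P with p | u
      · rw [h1 _ _ (by rintro ⟨e, e', h, -⟩; simp at h),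
          h1 _ _ (by rintro ⟨e, e', -, h⟩; simp at h)]
      · rcases Q with q | v
        · rw [h1 _ _ (by rintro ⟨e, e', -, h⟩; simp at h),
            h1 _ _ (by rintro ⟨e, e', h, -⟩; simp at h)]
        · rw [h2, h2]
          exact (hC.2 k l hkl).2 u v (fun h => hPQ (by rw [h]))

end count

/-- a set of orthogonal squares can be normalised at one cell -/
theorem normal {α : Type} [Fintype α] [DecidableEq α] {N : ℕ} {L : Fin N → Sq α} (hL : IsMOLS L)
    (a : α) : ∃ L' : Fin N → Sq α, IsMOLS L' ∧ ∀ k, L' k a a = a := by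
  refine ⟨fun k i j => Equiv.swap (L k a a) a (L k i j), ⟨fun k => ⟨fun i => ?_, fun j => ?_⟩,
    fun k l hkl u v => ?_⟩, fun k => Equiv.swap_apply_left _ _⟩
  · exact (Equiv.swap (L k a a) a).bijective.comp ((hL.1 k).1 i)
  · exact (Equiv.swap (L k a a) a).bijective.comp ((hL.1 k).2 j)
  · rw [← hL.2 k l hkl (Equiv.swap (L k a a) a u) (Equiv.swap (L l a a) a v)]
    unfold cnt
    congr 1
    ext p
    simp only [Finset.mem_filter, Finset.mem_univ, true_and]
    constructor
    · rintro ⟨h1, h2⟩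
      exact ⟨by rw [← h1, Equiv.swap_apply_self], by rw [← h2, Equiv.swap_apply_self]⟩
    · rintro ⟨h1, h2⟩
      exact ⟨by rw [h1, Equiv.swap_apply_self], by rw [h2, Equiv.swap_apply_self]⟩

/-- **Wilson's construction with a quasi-orthogonal filling.** -/
theorem hasMQOLS_wilson {N m t u : ℕ} (hm : HasMOLS N m) (hm' : HasMOLS N (m + 1))
    (ht : HasMOLS (N + 1) t) (hut : u ≤ t) (hu : HasMQOLS N u) : HasMQOLS N (m * t + u) := by
  classical
  obtain ⟨A, hA⟩ := hm
  obtain ⟨B', hB'⟩ := hm'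
  obtain ⟨O, hO⟩ := ht
  obtain ⟨C, hC⟩ := hu
  have e1 : Fin (m + 1) ≃ Option (Fin m) := Fintype.equivOfCardEq (by simp)
  obtain ⟨B, hB, b0⟩ := normal (tr_MOLS e1 hB') none
  let δ : Dat (Fin t) (Fin u) :=
    { O0 := O 0
      D := Fin.castLE hut
      g := fun d => if h : (d : ℕ) < u then some ⟨d, h⟩ else none
      ri := fun x d => (Equiv.ofBijective _ ((hO.1 0).1 x)).symm d
      ci := fun y d => (Equiv.ofBijective _ ((hO.1 0).2 y)).symm d
      hg := fun d e => by
        constructor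
        · intro h
          split_ifs at h with h1
          simp only [Option.some.injEq] at h
          rw [← h]
          rfl
        · intro h
          have h1 : (d : ℕ) < u := by rw [← h]; exact e.2
          rw [dif_pos h1]
          congr 1
          apply Fin.ext
          exact (congrArg Fin.val h).symm
      hri := fun x d => (Equiv.ofBijective _ ((hO.1 0).1 x)).apply_symm_apply d
      hri' := fun x y => (Equiv.ofBijective _ ((hO.1 0).1 x)).symm_apply_apply y
      hci := fun y d => (Equiv.ofBijective _ ((hO.1 0).2 y)).apply_symm_apply d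
      hci' := fun x y => (Equiv.ofBijective _ ((hO.1 0).2 y)).symm_apply_apply x }
  have hOs : IsMOLS fun k : Fin N => O k.succ :=
    ⟨fun k => hO.1 _, fun k l hkl => hO.2 _ _ (fun h => hkl (Fin.succ_injective _ h))⟩
  have hO0 : ∀ k : Fin N, Orth (O k.succ) δ.O0 := fun k => hO.2 _ _ (Fin.succ_ne_zero k)
  have h := W_MQOLS (M := Fin m) δ hOs hO0 hA hB hC b0
  exact ⟨_, tr_MQOLS (Fintype.equivFinOfCardEq (by simp [mul_comm])) h⟩

end Pool.Agent.Lib.MP_dea8c9_co.MQWilson
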