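import Pool.Agent.Lib.MP_dea8c9_co.MQShiftW
import Pool.Agent.Lib.MP_dea8c9_co.MQWilson

/-!
# Orders obtained from the eleven squares of order 12 by Wilson's construction
-/

set_option autoImplicit false

namespace Pool.Agent.Lib.MP_dea8c9_co.MQLarge

open Finset Pool.Agent.Lib.MP_dea8c9_co Pool.Agent.Lib.MP_dea8c9_co.MQ

theorem pp (N p r n : ℕ) (hp : p.Prime) (hr : r ≠ 0) (hn : p ^ r = n) (hN : N < n) : HasMOLS N n := by
  subst hn
  exact hasMOLS_primePow hp hr hN

/-- eleven squares of order 12 -/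
theorem mq12 : HasMQOLS 11 12 :=
  (MQW.Code.cyc 11).hasMQOLS_shift 11 (by norm_num) (by norm_num) (by decide +kernel)
    (fun i => 3812866202516553343495339777035 / 1024 ^ i % 1024) (fun k => 1 * k) [1, 2, 3, 4, 5, 6, 7, 8, 9, 10] (by decide +kernel) (by decide +kernel)
    (by decide +kernel) (by decide +kernel) (by decide +kernel) (by decide +kernel) (by decide +kernel)
    (by decide +kernel)

theorem mq116 : HasMQOLS 7 116 :=
  MQWilson.hasMQOLS_wilson (m := 8) (t := 13) (u := 12)
    (pp 7 2 3 8 (by norm_num) (by norm_num) (by norm_num) (by norm_num))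
    (pp 7 3 2 (8 + 1) (by norm_num) (by norm_num) (by norm_num) (by norm_num))
    (pp (7 + 1) 13 1 13 (by norm_num) (by norm_num) (by norm_num) (by norm_num)) (by norm_num)
    (mq12.mono (by norm_num))

theorem mq140 : HasMQOLS 7 140 :=
  MQWilson.hasMQOLS_wilson (m := 8) (t := 16) (u := 12)
    (pp 7 2 3 8 (by norm_num) (by norm_num) (by norm_num) (by norm_num))
    (pp 7 3 2 (8 + 1) (by norm_num) (by norm_num) (by norm_num) (by norm_num))
    (pp (7 + 1) 2 4 16 (by norm_num) (by norm_num) (by norm_num) (by norm_num)) (by norm_num)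
    (mq12.mono (by norm_num))

theorem mq148 : HasMQOLS 7 148 :=
  MQWilson.hasMQOLS_wilson (m := 8) (t := 17) (u := 12)
    (pp 7 2 3 8 (by norm_num) (by norm_num) (by norm_num) (by norm_num))
    (pp 7 3 2 (8 + 1) (by norm_num) (by norm_num) (by norm_num) (by norm_num))
    (pp (7 + 1) 17 1 17 (by norm_num) (by norm_num) (by norm_num) (by norm_num)) (by norm_num)
    (mq12.mono (by norm_num))

theorem mq164 : HasMQOLS 7 164 :=
  MQWilson.hasMQOLS_wilson (m := 8) (t := 19) (u := 12)
    (pp 7 2 3 8 (by norm_num) (by norm_num) (by norm_num) (by norm_num))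
    (pp 7 3 2 (8 + 1) (by norm_num) (by norm_num) (by norm_num) (by norm_num))
    (pp (7 + 1) 19 1 19 (by norm_num) (by norm_num) (by norm_num) (by norm_num)) (by norm_num)
    (mq12.mono (by norm_num))

theorem mq196 : HasMQOLS 7 196 :=
  MQWilson.hasMQOLS_wilson (m := 8) (t := 23) (u := 12)
    (pp 7 2 3 8 (by norm_num) (by norm_num) (by norm_num) (by norm_num))
    (pp 7 3 2 (8 + 1) (by norm_num) (by norm_num) (by norm_num) (by norm_num))
    (pp (7 + 1) 23 1 23 (by norm_num) (by norm_num) (by norm_num) (by norm_num)) (by norm_num)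
    (mq12.mono (by norm_num))

theorem mq212 : HasMQOLS 7 212 :=
  MQWilson.hasMQOLS_wilson (m := 8) (t := 25) (u := 12)
    (pp 7 2 3 8 (by norm_num) (by norm_num) (by norm_num) (by norm_num))
    (pp 7 3 2 (8 + 1) (by norm_num) (by norm_num) (by norm_num) (by norm_num))
    (pp (7 + 1) 5 2 25 (by norm_num) (by norm_num) (by norm_num) (by norm_num)) (by norm_num)
    (mq12.mono (by norm_num))

theorem mq220 : HasMQOLS 11 220 :=
  MQWilson.hasMQOLS_wilson (m := 16) (t := 13) (u := 12)
    (pp 11 2 4 16 (by norm_num) (by norm_num) (by norm_num) (by norm_num))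
    (pp 11 17 1 (16 + 1) (by norm_num) (by norm_num) (by norm_num) (by norm_num))
    (pp (11 + 1) 13 1 13 (by norm_num) (by norm_num) (by norm_num) (by norm_num)) (by norm_num)
    (mq12.mono (by norm_num))

theorem mq244 : HasMQOLS 7 244 :=
  MQWilson.hasMQOLS_wilson (m := 8) (t := 29) (u := 12)
    (pp 7 2 3 8 (by norm_num) (by norm_num) (by norm_num) (by norm_num))
    (pp 7 3 2 (8 + 1) (by norm_num) (by norm_num) (by norm_num) (by norm_num))
    (pp (7 + 1) 29 1 29 (by norm_num) (by norm_num) (by norm_num) (by norm_num)) (by norm_num)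
    (mq12.mono (by norm_num))

theorem mq268 : HasMQOLS 11 268 :=
  MQWilson.hasMQOLS_wilson (m := 16) (t := 16) (u := 12)
    (pp 11 2 4 16 (by norm_num) (by norm_num) (by norm_num) (by norm_num))
    (pp 11 17 1 (16 + 1) (by norm_num) (by norm_num) (by norm_num) (by norm_num))
    (pp (11 + 1) 2 4 16 (by norm_num) (by norm_num) (by norm_num) (by norm_num)) (by norm_num)
    (mq12.mono (by norm_num))

theorem mq284 : HasMQOLS 11 284 :=
  MQWilson.hasMQOLS_wilson (m := 16) (t := 17) (u := 12)
    (pp 11 2 4 16 (by norm_num) (by norm_num) (by norm_num) (by norm_num))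
    (pp 11 17 1 (16 + 1) (by norm_num) (by norm_num) (by norm_num) (by norm_num))
    (pp (11 + 1) 17 1 17 (by norm_num) (by norm_num) (by norm_num) (by norm_num)) (by norm_num)
    (mq12.mono (by norm_num))

theorem mq316 : HasMQOLS 11 316 :=
  MQWilson.hasMQOLS_wilson (m := 16) (t := 19) (u := 12)
    (pp 11 2 4 16 (by norm_num) (by norm_num) (by norm_num) (by norm_num))
    (pp 11 17 1 (16 + 1) (by norm_num) (by norm_num) (by norm_num) (by norm_num))
    (pp (11 + 1) 19 1 19 (by norm_num) (by norm_num) (by norm_num) (by norm_num)) (by norm_num)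
    (mq12.mono (by norm_num))

theorem mq340 : HasMQOLS 7 340 :=
  MQWilson.hasMQOLS_wilson (m := 8) (t := 41) (u := 12)
    (pp 7 2 3 8 (by norm_num) (by norm_num) (by norm_num) (by norm_num))
    (pp 7 3 2 (8 + 1) (by norm_num) (by norm_num) (by norm_num) (by norm_num))
    (pp (7 + 1) 41 1 41 (by norm_num) (by norm_num) (by norm_num) (by norm_num)) (by norm_num)
    (mq12.mono (by norm_num))

theorem mq380 : HasMQOLS 11 380 :=
  MQWilson.hasMQOLS_wilson (m := 16) (t := 23) (u := 12)
    (pp 11 2 4 16 (by norm_num) (by norm_num) (by norm_num) (by norm_num))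
    (pp 11 17 1 (16 + 1) (by norm_num) (by norm_num) (by norm_num) (by norm_num))
    (pp (11 + 1) 23 1 23 (by norm_num) (by norm_num) (by norm_num) (by norm_num)) (by norm_num)
    (mq12.mono (by norm_num))

theorem mq412 : HasMQOLS 11 412 :=
  MQWilson.hasMQOLS_wilson (m := 16) (t := 25) (u := 12)
    (pp 11 2 4 16 (by norm_num) (by norm_num) (by norm_num) (by norm_num))
    (pp 11 17 1 (16 + 1) (by norm_num) (by norm_num) (by norm_num) (by norm_num))
    (pp (11 + 1) 5 2 25 (by norm_num) (by norm_num) (by norm_num) (by norm_num)) (by norm_num)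
    (mq12.mono (by norm_num))

theorem mq415 : HasMQOLS 11 415 :=
  MQWilson.hasMQOLS_wilson (m := 31) (t := 13) (u := 12)
    (pp 11 31 1 31 (by norm_num) (by norm_num) (by norm_num) (by norm_num))
    (pp 11 2 5 (31 + 1) (by norm_num) (by norm_num) (by norm_num) (by norm_num))
    (pp (11 + 1) 13 1 13 (by norm_num) (by norm_num) (by norm_num) (by norm_num)) (by norm_num)
    (mq12.mono (by norm_num))

theorem mq436 : HasMQOLS 7 436 :=
  MQWilson.hasMQOLS_wilson (m := 8) (t := 53) (u := 12)
    (pp 7 2 3 8 (by norm_num) (by norm_num) (by norm_num) (by norm_num))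
    (pp 7 3 2 (8 + 1) (by norm_num) (by norm_num) (by norm_num) (by norm_num))
    (pp (7 + 1) 53 1 53 (by norm_num) (by norm_num) (by norm_num) (by norm_num)) (by norm_num)
    (mq12.mono (by norm_num))

theorem mq476 : HasMQOLS 11 476 :=
  MQWilson.hasMQOLS_wilson (m := 16) (t := 29) (u := 12)
    (pp 11 2 4 16 (by norm_num) (by norm_num) (by norm_num) (by norm_num))
    (pp 11 17 1 (16 + 1) (by norm_num) (by norm_num) (by norm_num) (by norm_num))
    (pp (11 + 1) 29 1 29 (by norm_num) (by norm_num) (by norm_num) (by norm_num)) (by norm_num)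
    (mq12.mono (by norm_num))

end Pool.Agent.Lib.MP_dea8c9_co.MQLarge
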