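import Pool.Agent.Lib.MP_dea8c9_co.MQCodeW

/-!
# Fast verification of sets of translates

If all squares of a set of bordered squares are translates of one square, then only the differences of the
translations have to be checked.
-/

set_option autoImplicit false
set_option linter.unusedSectionVars false

namespace Pool.Agent.Lib.MP_dea8c9_co.MQW

open Finset Pool.Agent.Lib.MP_dea8c9_co Pool.Agent.Lib.MP_dea8c9_co.MQ

section coded

variable {G : Type} [AddCommGroup G] [Fintype G] [DecidableEq G] {m : ℕ}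

/-- the map with a given table -/
def Code.dt (C : Code G m) (hm : 0 < m) (t : ℕ → ℕ) (x : G) : Option G :=
  if t (C.e x) = m then none else some (C.dec hm (t (C.e x)))

theorem Code.dt_none (C : Code G m) (hm : 0 < m) (t : ℕ → ℕ) (x : G) :
    C.dt hm t x = none ↔ t (C.e x) = m := by
  unfold Code.dt; split_ifs with h <;> simp [h]

theorem Code.dt_some (C : Code G m) (hm : 0 < m) (t : ℕ → ℕ) (x : G) (h : t (C.e x) ≠ m) :
    C.dt hm t x = some (C.dec hm (t (C.e x))) := by
  unfold Code.dt; rw [if_neg h]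

/-- counts of the values -/
theorem Code.dt_count (C : Code G m) (hm : 0 < m) (hm' : 2 * (m + 2) < 65536) (t : ℕ → ℕ) (c : ℕ)
    (h0 : ∀ i : Fin m, t i ≤ m) (hc : c < m)
    (h1 : sumTo (fun i => 65536 ^ t i) m + 65536 ^ c = rep (m + 1)) (z : Option G) :
    (univ.filter fun x => C.dt hm t x = z).card + (if some (C.dec hm c) = z then 1 else 0) = 1 := by
  have hcard : Fintype.card G = m := by rw [Fintype.card_congr C.e, Fintype.card_fin]
  have hle : ∀ (s : Finset G), s.card ≤ m := fun s => by
    rw [← hcard]; exact Finset.card_le_univ s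
  have hev : ∀ (x : G), t (C.e x) ≠ m → (C.e (C.dec hm (t (C.e x))) : ℕ) = t (C.e x) := fun x h =>
    C.e_dec hm (lt_of_le_of_ne (h0 (C.e x)) h)
  have hec : (C.e (C.dec hm c) : ℕ) = c := C.e_dec hm hc
  have h := h1
  rw [C.sumTo_code, rep_eq C.e'] at h
  have e1 : ∀ x, 65536 ^ t (C.e x) = 65536 ^ (C.e' (C.dt hm t x) : ℕ) := fun x => by
    by_cases hx : t (C.e x) = m
    · rw [(C.dt_none hm t x).2 hx, C.e'_none, hx]
    · rw [C.dt_some hm t x hx, C.e'_some, hev x hx]
  have e2 : 65536 ^ c = 65536 ^ (C.e' (some (C.dec hm c)) : ℕ) := by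
    rw [C.e'_some, hec]
  simp_rw [e1] at h
  rw [e2, sum_pow_fiber C.e' univ (C.dt hm t), pow_single C.e' (some (C.dec hm c)),
    ← Finset.sum_add_distrib] at h
  have h' : (∑ z, ((univ.filter fun x => C.dt hm t x = z).card +
      (if some (C.dec hm c) = z then 1 else 0)) * 65536 ^ (C.e' z : ℕ)) =
      ∑ z, 1 * 65536 ^ (C.e' z : ℕ) := by
    simp only [one_mul]
    rw [← h]
    exact Finset.sum_congr rfl fun x _ => by ring
  have h4 := digits_equiv C.e' _ _ (fun z => by
    have a1 := hle (univ.filter fun x => C.dt hm t x = z)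
    split_ifs <;> omega) (fun _ => by norm_num) h'
  exact congrFun h4 z

theorem Code.dt_count_none (C : Code G m) (hm : 0 < m) (hm' : 2 * (m + 2) < 65536) (t : ℕ → ℕ) (c : ℕ)
    (h0 : ∀ i : Fin m, t i ≤ m) (hc : c < m)
    (h1 : sumTo (fun i => 65536 ^ t i) m + 65536 ^ c = rep (m + 1)) :
    (univ.filter fun x => C.dt hm t x = none).card = 1 := by
  have := C.dt_count hm hm' t c h0 hc h1 none
  simpa using this

/-- the check for one square -/
theorem Code.goodSq_of_check (C : Code G m) (hm : 0 < m) (hm' : 2 * (m + 2) < 65536) (t : ℕ → ℕ) (c r : ℕ)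
    (h0 : ∀ i : Fin m, t i ≤ m) (hc : c < m) (hr : r < m)
    (h1 : sumTo (fun i => 65536 ^ t i) m + 65536 ^ c = rep (m + 1))
    (h1' : sumTo (fun i => if t i = m then 0 else 65536 ^ C.sb (t i) i) m + 65536 ^ r = rep m) :
    GoodSq (C.dt hm t) (C.dec hm c) (C.dec hm r) := by
  have hcard : Fintype.card G = m := by rw [Fintype.card_congr C.e, Fintype.card_fin]
  have hle : ∀ (s : Finset G), s.card ≤ m := fun s => by
    rw [← hcard]; exact Finset.card_le_univ s
  have hev : ∀ (x : G), t (C.e x) ≠ m → (C.e (C.dec hm (t (C.e x))) : ℕ) = t (C.e x) := fun x h =>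
    C.e_dec hm (lt_of_le_of_ne (h0 (C.e x)) h)
  have her : (C.e (C.dec hm r) : ℕ) = r := C.e_dec hm hr
  have hnone := C.dt_none hm t
  have hsome := C.dt_some hm t
  have A1 := C.dt_count hm hm' t c h0 hc h1
  -- counts of the differences to the argument
  have A2 : ∀ (d : G),
      ((univ.filter fun x => t (C.e x) ≠ m).filter fun x => C.dec hm (t (C.e x)) - x = d).card +
      (if C.dec hm r = d then 1 else 0) = 1 := by
    intro d
    have h := h1'
    rw [C.sumTo_code, rep_eq C.e] at h
    have e1 : (∑ x, if t (C.e x) = m then 0 else 65536 ^ C.sb (t (C.e x)) (C.e x)) =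
        ∑ x ∈ univ.filter (fun x => t (C.e x) ≠ m), 65536 ^ (C.e (C.dec hm (t (C.e x)) - x) : ℕ) := by
      rw [Finset.sum_filter]
      refine Finset.sum_congr rfl fun x _ => ?_
      by_cases hx : t (C.e x) = m
      · simp [hx]
      · rw [if_neg hx, if_pos hx, ← C.hsb, hev x hx]
    have e2 : 65536 ^ r = 65536 ^ (C.e (C.dec hm r) : ℕ) := by rw [her]
    rw [e1, e2, sum_pow_fiber C.e _ fun x => C.dec hm (t (C.e x)) - x, pow_single C.e (C.dec hm r),
      ← Finset.sum_add_distrib] at h
    have h' : (∑ d, (((univ.filter fun x => t (C.e x) ≠ m).filter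
        fun x => C.dec hm (t (C.e x)) - x = d).card +
        (if C.dec hm r = d then 1 else 0)) * 65536 ^ (C.e d : ℕ)) =
        ∑ d, 1 * 65536 ^ (C.e d : ℕ) := by
      simp only [one_mul]
      rw [← h]
      exact Finset.sum_congr rfl fun x _ => by ring
    have h4 := digits_equiv C.e _ _ (fun z => by
      have a1 := hle ((univ.filter fun x => t (C.e x) ≠ m).filter
        fun x => C.dec hm (t (C.e x)) - x = z)
      split_ifs <;> omega) (fun _ => by norm_num) h'
    exact congrFun h4 d
  have cle : ∀ z, (univ.filter fun x => C.dt hm t x = z).card ≤ 1 := fun z => by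
    have := A1 z; omega
  refine ⟨fun x y hxy => ?_, fun x hx => ?_, fun x y hxy => ?_, fun x hx => ?_⟩
  · exact two_of_card (cle (C.dt hm t x)) (by simp) (by simp [hxy])
  · have := A1 (some (C.dec hm c))
    rw [if_pos rfl] at this
    have h5 : (univ.filter fun x => C.dt hm t x = some (C.dec hm c)).card = 0 := by omega
    rw [Finset.card_eq_zero] at h5
    have : x ∈ (∅ : Finset G) := by rw [← h5]; simp [hx]
    simp at this
  · by_cases h5 : t (C.e x) = m
    · have hx : C.dt hm t x = none := (hnone x).2 h5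
      rw [hx] at hxy
      have hy : C.dt hm t y = none := by simpa using hxy.symm
      exact two_of_card (cle none) (by simp [hx]) (by simp [hy])
    · have hx := hsome x h5
      by_cases h6 : t (C.e y) = m
      · rw [hx, (hnone y).2 h6] at hxy
        simp at hxy
      · rw [hx, hsome y h6] at hxy
        simp only [Option.map_some, Option.some.injEq] at hxy
        have h7 := A2 (C.dec hm (t (C.e x)) - x)
        refine two_of_card (s := (univ.filter fun x => t (C.e x) ≠ m).filter
          fun z => C.dec hm (t (C.e z)) - z = C.dec hm (t (C.e x)) - x) (by omega) ?_ ?_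
        · simp [h5]
        · simp [h6, hxy]
  · by_cases h5 : t (C.e x) = m
    · rw [(hnone x).2 h5] at hx
      simp at hx
    · rw [hsome x h5] at hx
      simp only [Option.map_some, Option.some.injEq] at hx
      have h7 := A2 (C.dec hm r)
      rw [if_pos rfl] at h7
      have h8 : ((univ.filter fun x => t (C.e x) ≠ m).filter
          fun z => C.dec hm (t (C.e z)) - z = C.dec hm r).card = 0 := by omega
      rw [Finset.card_eq_zero] at h8
      have : x ∈ (∅ : Finset G) := by rw [← h8]; simp [h5, hx]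
      simp at this

/-- the check for the translates of one square -/
theorem Code.hasMQOLS_shift (C : Code G m) (N : ℕ) (hm : 0 < m) (hm' : 2 * (m + 2) < 65536)
    (hz : C.sb 0 0 = 0) (t : ℕ → ℕ) (c : ℕ → ℕ) (S : List ℕ) (h0 : ∀ i : Fin m, t i ≤ m)
    (hc : ∀ k : Fin N, c k < m) (hS : ∀ s ∈ S, s < m)
    (hcS : ∀ k l : Fin N, k < l → C.sb (c l) (c k) ∈ S)
    (h1 : sumTo (fun i => 65536 ^ t i) m + 65536 ^ 0 = rep (m + 1))
    (h1' : sumTo (fun i => if t i = m then 0 else 65536 ^ C.sb (t i) i) m + 65536 ^ 0 = rep m)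
    (h3 : ∀ s ∈ S, ∀ i : Fin m, t i = m → t (C.sb i s) ≠ m)
    (h2 : ∀ s ∈ S, sumTo (fun i => if t i = m ∨ t (C.sb i s) = m then 0
      else 65536 ^ C.sb (t (C.sb i s)) (t i) + 65536 ^ C.sb (t i) (t (C.sb i s))) m +
      ((65536 ^ 0 + 65536 ^ 0) + (65536 ^ C.sb 0 s + 65536 ^ s)) = 2 * rep m) :
    HasMQOLS N (m + 1) := by
  have hcard : Fintype.card G = m := by rw [Fintype.card_congr C.e, Fintype.card_fin]
  have hle : ∀ (s : Finset G), s.card ≤ m := fun s => by
    rw [← hcard]; exact Finset.card_le_univ s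
  have hec : ∀ k, k < m → (C.e (C.dec hm k) : ℕ) = k := fun k h => C.e_dec hm h
  have hinj : ∀ x y : G, (C.e x : ℕ) = C.e y → x = y := fun x y h => C.e.injective (Fin.ext h)
  have hd0 : C.dec hm 0 = 0 := by
    apply hinj
    have h := C.hsb (C.dec hm 0) (C.dec hm 0)
    rw [hec 0 hm, hz, sub_self] at h
    rw [hec 0 hm, h]
  have he0 : (C.e (0 : G) : ℕ) = 0 := by rw [← hd0]; exact hec 0 hm
  have hev : ∀ (x : G), t (C.e x) ≠ m → (C.e (C.dec hm (t (C.e x))) : ℕ) = t (C.e x) := fun x h =>
    C.e_dec hm (lt_of_le_of_ne (h0 (C.e x)) h)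
  have hsq := C.goodSq_of_check hm hm' t 0 0 h0 hm hm h1 h1'
  rw [hd0] at hsq
  have A1' := C.dt_count_none hm hm' t 0 h0 hm h1
  refine _root_.Pool.Agent.Lib.MP_dea8c9_co.MQ.hasMQOLS_shift hcard (C.dt hm t)
    (fun k : Fin N => C.dec hm (c k)) (S.map (C.dec hm)) hsq (fun k l hkl => ?_) ?_
  · refine List.mem_map.2 ⟨_, hcS k l hkl, ?_⟩
    apply hinj
    rw [hec _ (hS _ (hcS k l hkl)), ← C.hsb, hec _ (hc k), hec _ (hc l)]
  intro s' hs'
  obtain ⟨s, hs, rfl⟩ := List.mem_map.1 hs'
  set w : G := C.dec hm s with hw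
  have hew : (C.e w : ℕ) = s := hec s (hS s hs)
  have hsh : ∀ x : G, C.sb (C.e x) s = (C.e (x - w) : ℕ) := fun x => by rw [← C.hsb, hew]
  have hnone : ∀ x, C.dt hm t x = none ↔ t (C.e x) = m := C.dt_none hm t
  have hsome : ∀ x, t (C.e x) ≠ m → C.dt hm t x = some (C.dec hm (t (C.e x))) := C.dt_some hm t
  have hdis : ∀ x, C.dt hm t x = none → C.dt hm t (x - w) ≠ none := fun x hx h' => by
    have := h3 s hs (C.e x) ((hnone x).1 hx)
    rw [hsh] at this
    exact this ((hnone _).1 h')
  have A2' : (univ.filter fun x => C.dt hm t (x - w) = none).card = 1 := by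
    rw [← A1']
    exact card_filter_shift w fun x => C.dt hm t x = none
  have key : ∀ d, dcount (C.dt hm t) (fun x => C.dt hm t (x - w)) 0 0 0 (-w) d +
      dcount (C.dt hm t) (fun x => C.dt hm t (x - w)) 0 0 0 (-w) (-d) = 2 := by
    have h := h2 s hs
    rw [C.sumTo_code, rep_eq C.e] at h
    set u : Finset G := univ.filter fun x => ¬ (t (C.e x) = m ∨ t (C.e (x - w)) = m) with hu
    set D : G → G := fun x => C.dec hm (t (C.e (x - w))) - C.dec hm (t (C.e x)) with hD
    have e1 : (∑ x, if t (C.e x) = m ∨ t (C.sb (C.e x) s) = m then 0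
        else 65536 ^ C.sb (t (C.sb (C.e x) s)) (t (C.e x)) +
          65536 ^ C.sb (t (C.e x)) (t (C.sb (C.e x) s))) =
        (∑ x ∈ u, 65536 ^ (C.e (D x) : ℕ)) + ∑ x ∈ u, 65536 ^ (C.e (-D x) : ℕ) := by
      rw [hu, ← Finset.sum_add_distrib, Finset.sum_filter]
      refine Finset.sum_congr rfl fun x _ => ?_
      rw [hsh]
      by_cases hx : t (C.e x) = m ∨ t (C.e (x - w)) = m
      · simp [hx]
      · rw [if_neg hx, if_pos hx]
        push Not at hx
        have q1 : (C.e (D x) : ℕ) = C.sb (t (C.e (x - w))) (t (C.e x)) := by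
          have := C.hsb (C.dec hm (t (C.e (x - w)))) (C.dec hm (t (C.e x)))
          rw [hev x hx.1, hev (x - w) hx.2] at this
          exact this.symm
        have q2 : (C.e (-D x) : ℕ) = C.sb (t (C.e x)) (t (C.e (x - w))) := by
          have := C.hsb (C.dec hm (t (C.e x))) (C.dec hm (t (C.e (x - w))))
          rw [hev x hx.1, hev (x - w) hx.2] at this
          rw [this, hD, neg_sub]
        rw [q1, q2]
    have e3 : (65536 : ℕ) ^ 0 = 65536 ^ (C.e (0 : G) : ℕ) := by rw [he0]
    have e4 : (65536 : ℕ) ^ C.sb 0 s = 65536 ^ (C.e (-w) : ℕ) := by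
      have : C.sb 0 s = C.sb (C.e (0 : G)) (C.e w) := by rw [he0, hew]
      rw [this, C.hsb, zero_sub]
    have e5 : (65536 : ℕ) ^ s = 65536 ^ (C.e w : ℕ) := by rw [hew]
    rw [e1, e3, e4, e5, sum_pow_fiber C.e u D,
      sum_pow_fiber C.e u fun x => -D x, pow_single C.e (0 : G), pow_single C.e w,
      pow_single C.e (-w),
      ← Finset.sum_add_distrib, ← Finset.sum_add_distrib, ← Finset.sum_add_distrib,
      ← Finset.sum_add_distrib, ← Finset.sum_add_distrib, Finset.mul_sum] at h
    have hdc : ∀ d, dcount (C.dt hm t) (fun x => C.dt hm t (x - w)) 0 0 0 (-w) d =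
        (u.filter fun x => D x = d).card +
        ((if (0 : G) = d then 1 else 0) + if -w = d then 1 else 0) := by
      intro d
      unfold dcount
      rw [sub_zero, sub_zero]
      congr 2
      ext x
      simp only [mem_filter, mem_univ, true_and, hu, ne_eq]
      constructor
      · rintro ⟨h5, h6⟩
        have h7 : t (C.e x) ≠ m := fun h' => h6 ((hnone x).2 h')
        rw [hsome x h7] at h5
        have h8 : t (C.e (x - w)) ≠ m := fun h' => by
          rw [(hnone (x - w)).2 h'] at h5
          simp at h5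
        rw [hsome (x - w) h8] at h5
        simp only [Option.map_some, Option.some.injEq] at h5
        refine ⟨by push Not; exact ⟨h7, h8⟩, ?_⟩
        rw [hD]
        simp only
        rw [← h5]; abel
      · rintro ⟨h5, h6⟩
        push Not at h5
        rw [hsome x h5.1, hsome (x - w) h5.2]
        simp only [Option.map_some, Option.some.injEq, reduceCtorEq, not_false_eq_true, and_true]
        rw [← h6, hD]
        simp only
        abel
    set f : G → ℕ := fun d => (u.filter fun x => D x = d).card + (u.filter fun x => -D x = d).card +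
      (((if (0 : G) = d then 1 else 0) + (if (0 : G) = d then 1 else 0)) +
        ((if -w = d then 1 else 0) + (if w = d then 1 else 0))) with hf
    have h' : (∑ d, f d * 65536 ^ (C.e d : ℕ)) = ∑ d, 2 * 65536 ^ (C.e d : ℕ) := by
      rw [← h]
      refine Finset.sum_congr rfl fun x _ => ?_
      simp only [hf]
      ring
    have h4 := digits_equiv C.e _ _ (fun z => by
      have a1 := hle (u.filter fun x => D x = z)
      have a2 := hle (u.filter fun x => -D x = z)
      simp only [hf]
      split_ifs <;> omega) (fun _ => by norm_num) h'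
    intro d
    have h5 := congrFun h4 d
    rw [hdc, hdc, ← h5]
    simp only [hf]
    have n1 : ∀ y : G, (-y = d) = (y = -d) := fun y => by rw [neg_eq_iff_eq_neg]
    have n2 : ((0 : G) = -d) = ((0 : G) = d) := by
      rw [← n1, neg_zero]
    have n3 : (-w = -d) = (w = d) := by rw [neg_inj]
    simp only [n1, n2, n3]
    ring
  refine ⟨hdis, ?_, ?_, ?_, fun d _ => key d⟩
  · rw [← A2']
    congr 1
    ext x
    simp only [mem_filter, mem_univ, true_and]
    exact ⟨fun h => h.2, fun h => ⟨fun h' => hdis x h' h, h⟩⟩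
  · rw [← A1']
    congr 1
    ext x
    simp only [mem_filter, mem_univ, true_and]
    exact ⟨fun h => h.2, fun h => ⟨hdis x h, h⟩⟩
  · have := key 0
    rw [neg_zero] at this
    omega

end coded

end Pool.Agent.Lib.MP_dea8c9_co.MQW
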